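import Pool.Agent.H30.FQ.Targets

/-!
# MP_70ba79_ag: identities of the differential system (ALG)
-/

set_option autoImplicit false

namespace Pool.Agent.H30.FQ

open SC Pool.Agent.H27.LV

section

variable {k K : Type} [Field k] [CharZero k] [Field K] [Algebra k K]

lemma nab_add (D : Derivation k K K) (l : K) (j : ℕ) (f g : K) :
    nab D l j (f + g) = nab D l j f + nab D l j g := by
  unfold nab; rw [map_add]; ring

lemma nab_sub (D : Derivation k K K) (l : K) (j : ℕ) (f g : K) :
    nab D l j (f - g) = nab D l j f - nab D l j g := by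
  unfold nab; rw [map_sub]; ring

lemma nab_mul (D : Derivation k K K) (l : K) (i j : ℕ) (f g : K) :
    nab D l (i + j) (f * g) = nab D l i f * g + f * nab D l j g := by
  unfold nab; rw [D.leibniz, smul_eq_mul, smul_eq_mul]; push_cast; ring

lemma nab_const_mul (D : Derivation k K K) (l : K) (j : ℕ) (c f : K) (hc : D c = 0) :
    nab D l j (c * f) = c * nab D l j f := by
  unfold nab; rw [D.leibniz, smul_eq_mul, smul_eq_mul, hc]; ring

lemma D_ofNat (D : Derivation k K K) (n : ℕ) : D ((n : K)) = 0 := D.map_natCast n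

end

theorem alg : T_ALG := by
  intro k K _ _ _ _ D p q a b l κ Q e e1 e2 e3 κ1 κ2 S P h he he1 he2 he3 hκ1 hκ2 hS hP
  have hcz : CharZero K := charZero_of_injective_algebraMap (algebraMap k K).injective
  obtain ⟨hp, hq, ha, hb, hQ, hl⟩ := h
  have hD7 : D (7 : K) = 0 := by simpa using D.map_natCast 7
  have hD12 : D (12 : K) = 0 := by simpa using D.map_natCast 12
  have hD9 : D (9 : K) = 0 := by simpa using D.map_natCast 9
  have hD2 : D (2 : K) = 0 := by simpa using D.map_natCast 2
  have hκ : D κ = κ1 + 2 * l * κ := by rw [hκ1]; unfold nab; push_cast; ring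
  have hDκ1 : D κ1 = κ2 + 3 * l * κ1 := by rw [hκ2]; unfold nab; push_cast; ring
  have hD : ∀ n : ℕ, D ((n : K)) = 0 := fun n => D.map_natCast n
  have hc6 : D (6 : K) = 0 := by simpa using hD 6
  have hc7 : D (7 : K) = 0 := by simpa using hD 7
  have hc8 : D (8 : K) = 0 := by simpa using hD 8
  have hc9 : D (9 : K) = 0 := by simpa using hD 9
  have hc12 : D (12 : K) = 0 := by simpa using hD 12
  have hc16 : D (16 : K) = 0 := by simpa using hD 16
  have hc21 : D (21 : K) = 0 := by simpa using hD 21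
  have hc24 : D (24 : K) = 0 := by simpa using hD 24
  have hc48 : D (48 : K) = 0 := by simpa using hD 48
  have hc56 : D (56 : K) = 0 := by simpa using hD 56
  have hc64 : D (64 : K) = 0 := by simpa using hD 64
  have hc80 : D (80 : K) = 0 := by simpa using hD 80
  have hc96 : D (96 : K) = 0 := by simpa using hD 96
  have hc144 : D (144 : K) = 0 := by simpa using hD 144
  have hc160 : D (160 : K) = 0 := by simpa using hD 160
  have hc168 : D (168 : K) = 0 := by simpa using hD 168
  have hc192 : D (192 : K) = 0 := by simpa using hD 192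
  have hc240 : D (240 : K) = 0 := by simpa using hD 240
  have hc288 : D (288 : K) = 0 := by simpa using hD 288
  have hc304 : D (304 : K) = 0 := by simpa using hD 304
  have hc720 : D (720 : K) = 0 := by simpa using hD 720
  have hc840 : D (840 : K) = 0 := by simpa using hD 840
  have hc912 : D (912 : K) = 0 := by simpa using hD 912
  have hc1344 : D (1344 : K) = 0 := by simpa using hD 1344
  have hc1536 : D (1536 : K) = 0 := by simpa using hD 1536
  have hc1584 : D (1584 : K) = 0 := by simpa using hD 1584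
  have hc1904 : D (1904 : K) = 0 := by simpa using hD 1904
  have hc2016 : D (2016 : K) = 0 := by simpa using hD 2016
  have hc2304 : D (2304 : K) = 0 := by simpa using hD 2304
  have hc3232 : D (3232 : K) = 0 := by simpa using hD 3232
  have hc14016 : D (14016 : K) = 0 := by simpa using hD 14016
  have hc16464 : D (16464 : K) = 0 := by simpa using hD 16464
  have hc32256 : D (32256 : K) = 0 := by simpa using hD 32256
  have E1 : e1 = 168 * p ^ 3 + 24 * p ^ 2 * q + 24 * p * q ^ 2 - 56 * p * a + 8 * p * b - 48 * p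
      * κ + 168 * q ^ 3 + 8 * q * a - 56 * q * b - 48 * q * κ := by
    rw [he1, he]; unfold nab
    simp only [map_add, map_sub, D.leibniz, D.leibniz_pow, smul_eq_mul, nsmul_eq_mul, hp, hq, ha,
      hb, hc7, hc12, hc9]
    push_cast
    ring
  have E2 : e2 = -2016 * p ^ 4 - 192 * p ^ 3 * q - 192 * p ^ 2 * q ^ 2 + 840 * p ^ 2 * a + 8 * p
      ^ 2 * b + 720 * p ^ 2 * κ - 192 * p * q ^ 3 - 80 * p * q * a - 80 * p * q * b + 96 * p * q
      * κ - 48 * p * κ1 - 2016 * q ^ 4 + 8 * q ^ 2 * a + 840 * q ^ 2 * b + 720 * q ^ 2 * κ - 48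
      * q * κ1 - 56 * a ^ 2 + 16 * a * b - 96 * a * κ - 56 * b ^ 2 - 96 * b * κ - 96 * κ ^ 2 :=
      by
    rw [he2, E1]; unfold nab
    simp only [map_add, map_sub, map_neg, D.leibniz, D.leibniz_pow, smul_eq_mul, nsmul_eq_mul,
        hp, hq, ha,
      hb, hκ, hc6, hc7, hc8, hc9, hc12, hc16, hc21, hc24, hc48, hc56, hc64, hc80, hc96, hc144,
          hc160, hc168, hc192, hc240, hc288, hc304, hc720, hc840, hc912, hc1344, hc1536, hc1584,
          hc1904, hc2016, hc2304, hc3232, hc14016, hc16464, hc32256]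
    push_cast
    ring
  have E3 : e3 = 32256 * p ^ 5 + 2304 * p ^ 4 * q + 2304 * p ^ 3 * q ^ 2 - 16464 * p ^ 3 * a -
      240 * p ^ 3 * b - 14016 * p ^ 3 * κ + 2304 * p ^ 2 * q ^ 3 + 1584 * p ^ 2 * q * a - 240 *
      p ^ 2 * q * b - 1344 * p ^ 2 * q * κ + 912 * p ^ 2 * κ1 + 2304 * p * q ^ 4 - 240 * p * q ^
      2 * a + 1584 * p * q ^ 2 * b - 1344 * p * q ^ 2 * κ + 96 * p * q * κ1 + 1904 * p * a ^ 2 -
      64 * p * a * b + 3232 * p * a * κ - 304 * p * b ^ 2 - 160 * p * b * κ + 1536 * p * κ ^ 2 -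
      48 * p * κ2 + 32256 * q ^ 5 - 240 * q ^ 3 * a - 16464 * q ^ 3 * b - 14016 * q ^ 3 * κ +
      912 * q ^ 2 * κ1 - 304 * q * a ^ 2 - 64 * q * a * b - 160 * q * a * κ + 1904 * q * b ^ 2 +
      3232 * q * b * κ + 1536 * q * κ ^ 2 - 48 * q * κ2 - 144 * a * κ1 - 144 * b * κ1 - 288 * κ
      * κ1 := by
    rw [he3, E2]; unfold nab
    simp only [map_add, map_sub, map_neg, D.leibniz, D.leibniz_pow, smul_eq_mul, nsmul_eq_mul,
        hp, hq, ha,
      hb, hκ, hDκ1, hc6, hc7, hc8, hc9, hc12, hc16, hc21, hc24, hc48, hc56, hc64, hc80, hc96,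
          hc144, hc160, hc168, hc192, hc240, hc288, hc304, hc720, hc840, hc912, hc1344, hc1536,
          hc1584, hc1904, hc2016, hc2304, hc3232, hc14016, hc16464, hc32256]
    push_cast
    ring
  have hQ' : Q = -(a * b) := by rw [hQ]; ring
  refine ⟨?_, ?_, ?_, ?_, ?_, ?_, ?_, ?_⟩
  · rw [hQ']; unfold nab
    simp only [map_neg, D.leibniz, smul_eq_mul, ha, hb]
    push_cast
    ring
  · rw [he, hS, hP]; ring
  · rw [E1, he, hS, hP]; ring
  · rw [hS, hP, hQ']; ring
  · rw [he, hS, hP]; unfold nab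
    simp only [map_add, hp, hq]
    push_cast
    ring
  · rw [E1, he, hS, hP]; unfold nab
    simp only [D.leibniz, smul_eq_mul, hp, hq]
    push_cast
    ring
  · unfold eqF
    rw [E1, E2, he, hS, hP, hQ']
    ring
  · unfold eqF1
    rw [E1, E2, E3, he, hS, hP, hQ']
    ring

end Pool.Agent.H30.FQ
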