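import Pool.Agent.H30.FQ.Targets

/-!
# MP_70ba79_ag: from the global to the local hypotheses
-/

set_option autoImplicit false

namespace Pool.Agent.H30.FQ

open SC Pool.Agent.H27.LV

section

variable {k K : Type} [Field k] [IsAlgClosed k] [CharZero k] [Field K] [Algebra k K]
  [Algebra.EssFiniteType k K]

open Classical in
/-- the local hypotheses at every place -/
lemma loc_of (htr : Algebra.trdeg k K = 1) {S : Finset (DV k K)} {D : Derivation k K K}
    {X Y : K} (hD : D ≠ 0) (hc : ∀ v, 0 ≤ cc S D v) (hDu : D X + D Y = X + Y - 1)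
    (hg : gg D X ≠ 0) (h : Orb S X Y) (v : DV k K) :
    Loc v D (if v ∈ S then 1 else 0) (cc S D v) X Y := by
  have h1 := dor k K htr D hD v
  have h2 : (if v ∈ S then (1 : ℤ) else 0) - cc S D v = ordD v D := by
    unfold cc
    ring
  refine ⟨?_, ?_, hc v, h.x0, h.y0, h.u0, hDu, hg, ?_⟩
  · rw [h2]; exact h1.2.1
  · rw [h2]; exact h1.2.2
  · by_cases hv : v ∈ S
    · left; rw [if_pos hv]
    · right
      rw [if_neg hv]
      exact ⟨rfl, h.ou v hv, h.ox v hv, h.oy v hv⟩

lemma loc_in (htr : Algebra.trdeg k K = 1) {S : Finset (DV k K)} {D : Derivation k K K}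
    {X Y : K} (hD : D ≠ 0) (hc : ∀ v, 0 ≤ cc S D v) (hDu : D X + D Y = X + Y - 1)
    (hg : gg D X ≠ 0) (h : Orb S X Y) {v : DV k K} (hv : v ∈ S) :
    Loc v D 1 (cc S D v) X Y := by
  classical
  have := loc_of htr hD hc hDu hg h v
  rwa [if_pos hv] at this

lemma loc_out (htr : Algebra.trdeg k K = 1) {S : Finset (DV k K)} {D : Derivation k K K}
    {X Y : K} (hD : D ≠ 0) (hc : ∀ v, 0 ≤ cc S D v) (hDu : D X + D Y = X + Y - 1)
    (hg : gg D X ≠ 0) (h : Orb S X Y) {v : DV k K} (hv : v ∉ S) :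
    Loc v D 0 (cc S D v) X Y := by
  classical
  have := loc_of htr hD hc hDu hg h v
  rwa [if_neg hv] at this

end

end Pool.Agent.H30.FQ
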