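import Pool.Agent.H30.FQ.Targets2
import Pool.Agent.H30.FQ.Basic

/-!
# MP_70ba79_ag: the orbifold `(P^2; ∞, ∞, 4, 4)`: proof of the degree bound from the modules
-/

set_option autoImplicit false

namespace Pool.Agent.H30.FQ

open SC Pool.Agent.H27.LV

section

variable {k K : Type} [Field k] [CharZero k] [Field K] [Algebra k K]

lemma Sm.nabS {w : DV k K → ℤ} (hD : ∀ v, 0 ≤ w v) {D : Derivation k K K}
    (hsm : ∀ (j : ℕ) (f : K), Sm w j f → Sm w (j + 1) (D f)) {l f : K} (hl : Sm w 1 l) {j : ℕ}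
    (hf : Sm w j f) (i : ℕ) : Sm w (j + 1) (nab D l i f) := by
  unfold nab
  refine (hsm j f hf).sub ?_
  have h1 := (sm_natCast w i).mul hl
  have h2 := h1.mul hf
  have h3 : 0 + 1 + j = j + 1 := by ring
  rwa [h3] at h2

lemma Sm.ofGe {w : DV k K → ℤ} {j : ℕ} {f : K} (h : ∀ v, ge v (-(2 * j * w v)) f) : Sm w j f := h

end

theorem main (hSYS : T_SYS) (hALG : T_ALG) (hQSM : T_QSM) (hEBD : T_EBD) (hEGD : T_EGD)
    (hCVP : T_CVP) (hWSM : T_WSM) (hSMD : T_SMD) (hHHI : T_HHI) (hFIN : T_FIN) (hZHI : T_ZHI)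
    (hGZR : T_GZR) (hLMU : T_LMU) (hKAP : T_KAP) (hELM : T_ELM) (hLIN : T_LIN) (hSQI : T_SQI)
    (hCAA : T_CAA) (hW1I : T_W1I) (hW0I : T_W0I) : T_MAIN := by
  intro k K _ _ _ _ _ _ htr S X Y horb hnc hX1 hY1 hXY hW1 hW0 D0 hD0
  have hcz : CharZero K := charZero_of_injective_algebraMap (algebraMap k K).injective
  obtain ⟨hh1, hh2, hh3⟩ := hHHI k K htr
  have hlmu := hLMU k K htr S D0 X Y hD0 horb hXY hnc
  obtain ⟨χ, hχ⟩ : ∃ χ : ℤ, χ = canDeg D0 + S.card := ⟨_, rfl⟩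
  rw [← hχ] at hlmu ⊢
  obtain ⟨u, hu⟩ : ∃ u : K, u = X + Y - 1 := ⟨_, rfl⟩
  have hu0 : u ≠ 0 := by rw [hu]; exact horb.u0
  rw [← hu] at hlmu
  by_cases huc : u ∈ Set.range (algebraMap k K)
  · rcases hlmu with h | h
    · obtain ⟨c, hc⟩ := huc
      have h0 : hh k u = 0 := by
        have h1 := hh2 0 c
        rw [zero_add, hc] at h1
        rw [h1]
        unfold hh
        have : ∀ v : DV k K, max 0 (-(v.ord (0 : K))) = 0 := fun v => by rw [v.ord_zero]; simp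
        simp only [this]
        exact finsum_zero
      rw [h0] at h
      have : (0 : ℤ) ≤ deg k ![X, Y] := by positivity
      omega
    · exact absurd huc h.2
  obtain ⟨D, hD, hDu, hc, hcf, hcs⟩ := hCVP k K htr S D0 u hD0 huc
    (fun v hv => by rw [hu]; exact horb.ou v hv)
  rw [← hχ] at hcs
  have hDXY : D X + D Y = X + Y - 1 := by
    have h1 : D u = D X + D Y := by
      rw [hu, map_sub, map_add, D.map_one_eq_zero, sub_zero]
    rw [← h1, hDu, hu]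
  have hχ0 : 0 ≤ χ := by
    rw [← hcs]
    exact finsum_nonneg hc
  by_cases hg : gg D X = 0
  · have h1 := hGZR k K htr S D X Y hD hc hcf hDXY (by rw [← hu]; exact huc) hg horb hX1 hY1
    rw [hcs] at h1
    omega
  have hloc := fun v => loc_of htr hD hc hDXY hg horb v
  obtain ⟨hsys, hab, ha0, hQ0, hDX, hDY⟩ := hSYS k K D X Y horb.x0 horb.y0 hDXY hg
  have hQ6 : ∀ v : DV k K, -(6 * cc S D v) ≤ v.ord (QQ D X Y) := fun v =>
    hQSM k K v D _ _ X Y (hloc v)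
  obtain ⟨w, hw⟩ : ∃ w : DV k K → ℤ, ∀ v, w v = cc S D v + |v.ord (QQ D X Y)| :=
    ⟨_, fun _ => rfl⟩
  obtain ⟨hwf, hws⟩ := hWSM k K htr (cc S D) (QQ D X Y) hcf hc hQ6
  have hw' : (fun v => cc S D v + |v.ord (QQ D X Y)|) = w := funext fun v => (hw v).symm
  have hwf' : {v | w v ≠ 0}.Finite := by
    have : {v | w v ≠ 0} = {v | cc S D v + |v.ord (QQ D X Y)| ≠ 0} := by
      ext v; simp only [Set.mem_ofPred_eq, hw v]
    rw [this]; exact hwf
  rw [hw', hcs] at hws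
  obtain ⟨W, hW⟩ : ∃ W : ℤ, W = ∑ᶠ v, w v := ⟨_, rfl⟩
  rw [← hW] at hws
  have hw0 : ∀ v, 0 ≤ w v := fun v => by
    rw [hw]
    have := hc v
    have := abs_nonneg (v.ord (QQ D X Y))
    omega
  have hcw : ∀ v, cc S D v ≤ w v := fun v => by
    rw [hw]
    have := abs_nonneg (v.ord (QQ D X Y))
    omega
  have hsm := hSMD k K htr S D w hD hc hcw
  -- local smallness of `ℓ` and `e`
  have hle : ∀ v : DV k K, ge v (-(w v)) (ll D X Y) ∧ ge v (-(4 * w v)) (ee D X Y) := by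
    intro v
    by_cases hv : v ∈ S
    · exact hEBD k K v D 1 _ _ X Y (loc_in htr hD hc hDXY hg horb hv) (hw v) (Or.inl rfl)
    · have hl := loc_out htr hD hc hDXY hg horb hv
      rcases (hw0 v).eq_or_lt with h0 | h0
      · have h1 := hw v
        have h2 := hc v
        have h3 := abs_nonneg (v.ord (QQ D X Y))
        have h4 : cc S D v = 0 := by omega
        have h5 : |v.ord (QQ D X Y)| = 0 := by omega
        rw [h4] at hl
        have h6 := hEGD k K v D X Y hl (abs_eq_zero.1 h5)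
        rw [← h0]
        simpa using h6
      · exact hEBD k K v D 0 _ _ X Y hl (hw v) (Or.inr h0)
  have hSl : Sm w 1 (ll D X Y) := fun v => (hle v).1.mono (by have := hw0 v; push_cast; omega)
  have hSe : Sm w 2 (ee D X Y) := fun v => (hle v).2.mono (by push_cast; omega)
  have hSQ : Sm w 4 (QQ D X Y) := fun v => (ge_of_ord v).mono (by
    have h1 := hw v
    have h2 := hc v
    have h3 := neg_abs_le (v.ord (QQ D X Y))
    have h4 := abs_nonneg (v.ord (QQ D X Y))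
    push_cast
    omega)
  have hSk : Sm w 2 (kk D X Y) := by
    have h1 : Sm w 2 (1 : K) := by
      have := (sm_natCast (k := k) (K := K) w 1).mono hw0 (show 0 ≤ 2 by norm_num)
      simpa using this
    have h2 : Sm w 2 (ll D X Y ^ 2) := by
      have := hSl.pow 2
      simpa using this
    have h3 := hsm 1 _ hSl
    have h4 : Sm w 2 (1 - ll D X Y ^ 2 + 2 * D (ll D X Y)) := by
      refine (h1.sub h2).add ?_
      have h5 := h3.const_mul (2 : k)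
      have h6 : algebraMap k K 2 = 2 := map_ofNat _ 2
      rw [h6] at h5
      exact h5
    have h5 := h4.const_mul (1 / 16 : k)
    have h6 : algebraMap k K (1 / 16) = 1 / 16 := by
      rw [map_div₀, map_one, map_ofNat]
    rw [h6] at h5
    unfold kk
    have h7 : (1 - ll D X Y ^ 2 + 2 * D (ll D X Y)) / 16 =
      1 / 16 * (1 - ll D X Y ^ 2 + 2 * D (ll D X Y)) := by ring
    rw [h7]
    exact h5
  -- abbreviations
  obtain ⟨p, hp⟩ : ∃ p, p = pp D X Y := ⟨_, rfl⟩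
  obtain ⟨q, hq⟩ : ∃ q, q = qq D X Y := ⟨_, rfl⟩
  obtain ⟨a, ha⟩ : ∃ a, a = aa D X := ⟨_, rfl⟩
  obtain ⟨b, hb⟩ : ∃ b, b = bb D X Y := ⟨_, rfl⟩
  obtain ⟨l, hl⟩ : ∃ l, l = ll D X Y := ⟨_, rfl⟩
  obtain ⟨κ, hκ⟩ : ∃ κ, κ = kk D X Y := ⟨_, rfl⟩
  obtain ⟨Q, hQ⟩ : ∃ Q, Q = QQ D X Y := ⟨_, rfl⟩
  obtain ⟨e, he⟩ : ∃ e, e = ee D X Y := ⟨_, rfl⟩
  have hed : e = 7 * (a + b) - 12 * (p + q) ^ 2 - 9 * (p - q) ^ 2 := by
    rw [he, ha, hb, hp, hq]; rfl
  have hfin := hFIN k K htr S D X Y hD hc hcf hDXY hg horb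
  have hzhi := hZHI k K htr S D w X Y hD hc hDXY hg horb hw hwf'
  rw [← hp, ← hq, ← hW] at hzhi
  rw [hcs] at hfin
  rw [← hp, ← hq, ← ha, ← hb, ← hl, ← hκ, ← hQ] at hsys
  rw [← ha, ← hb] at hab
  rw [← ha] at ha0
  rw [← hQ] at hQ0 hSQ
  rw [← hp, ← hl] at hDX
  rw [← hq, ← hl] at hDY
  rw [← hl] at hSl
  rw [← he] at hSe
  rw [← hκ] at hSk
  obtain ⟨e1, he1⟩ : ∃ e1, e1 = nab D l 2 e := ⟨_, rfl⟩
  obtain ⟨e2, he2⟩ : ∃ e2, e2 = nab D l 3 e1 := ⟨_, rfl⟩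
  obtain ⟨e3, he3⟩ : ∃ e3, e3 = nab D l 4 e2 := ⟨_, rfl⟩
  obtain ⟨κ1, hκ1⟩ : ∃ κ1, κ1 = nab D l 2 κ := ⟨_, rfl⟩
  obtain ⟨κ2, hκ2⟩ : ∃ κ2, κ2 = nab D l 3 κ1 := ⟨_, rfl⟩
  obtain ⟨s, hs⟩ : ∃ s, s = p + q := ⟨_, rfl⟩
  obtain ⟨P, hP⟩ : ∃ P, P = p * q := ⟨_, rfl⟩
  have hSe1 : Sm w 3 e1 := by rw [he1]; exact Sm.nabS hw0 hsm hSl hSe 2
  have hSe2 : Sm w 4 e2 := by rw [he2]; exact Sm.nabS hw0 hsm hSl hSe1 3
  have hSe3 : Sm w 5 e3 := by rw [he3]; exact Sm.nabS hw0 hsm hSl hSe2 4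
  have hSk1 : Sm w 3 κ1 := by rw [hκ1]; exact Sm.nabS hw0 hsm hSl hSk 2
  have hSk2 : Sm w 4 κ2 := by rw [hκ2]; exact Sm.nabS hw0 hsm hSl hSk1 3
  obtain ⟨hnQ, h21, hz, hz2, hnS, hnP, hF, hF1⟩ := hALG k K D p q a b l κ Q e e1 e2 e3 κ1 κ2 s P
    hsys hed he1 he2 he3 hκ1 hκ2 hs hP
  rw [← hs] at hzhi
  have hsmall : hh k s ≤ 20 * W → (deg k ![X, Y] : ℤ) ≤ 653 * χ := by
    intro h
    omega
  -- the case `κ1 = 0`
  have hkap : κ1 = 0 → κ ≠ 0 → ((l = 0 ∧ κ = 1 / 16) → False) →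
      (deg k ![X, Y] : ℤ) ≤ 653 * χ := by
    intro h1 h2 h3
    have h4 : D κ = 2 * l * κ := by
      rw [hκ1] at h1
      unfold nab at h1
      push_cast at h1
      linear_combination h1
    rcases hKAP k K htr D w hD hw0 hwf' hsm l κ u hSl hSk hDu hu0 h2 h4 hsys.dl with h | h
    · rw [← hW] at h
      rcases hlmu with h5 | h5
      · omega
      · omega
    · exact absurd h h3
  have hXYu : l = 0 → 4 * (p + 1 / 8) * X + 4 * (q + 1 / 8) * Y = X + Y - 1 := by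
    intro h
    rw [← hDXY, hDX, hDY, h]
    ring
  have hDp : l = 0 → κ = 1 / 16 → D p = a - 4 * p ^ 2 + 1 / 16 := by
    intro h1 h2
    rw [hsys.dp, h1, h2]; ring
  have hDq : l = 0 → κ = 1 / 16 → D q = b - 4 * q ^ 2 + 1 / 16 := by
    intro h1 h2
    rw [hsys.dq, h1, h2]; ring
  have hXY1 : X + Y - 1 ≠ 0 := horb.u0
  rcases hELM k K htr w hw0 hwf' e e1 e2 e3 κ κ1 κ2 Q s P hSe hSe1 hSe2 hSe3 hSk hSk1 hSk2 hSQ
    hF hF1 with h | h | h
  · rw [← hW] at h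
    exact hsmall h
  · obtain ⟨c1, c2, c3⟩ := h
    obtain ⟨d1, d2, d3, d4, d5⟩ := hCAA k K D l e e1 e2 κ κ1 κ2 Q s P he1 he2 hκ1 hκ2 hF c1 c2 c3
    have hk0 : κ ≠ 0 := by
      rintro h0
      apply hQ0
      rw [d4, h0]; ring
    refine hkap d1 hk0 fun h => ?_
    obtain ⟨hl0, hk16⟩ := h
    apply hW0
    refine hW0I k K D p q a b X Y horb.x0 horb.y0 hXY hXY1 ha0 (hDp hl0 hk16) (hDq hl0 hk16) hab
      (hXYu hl0) ?_ ?_ ?_
    · rw [hk16] at d5
      rw [← hs, ← hP]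
      linear_combination d5
    · rw [← hs, ← hP, h21, d2, hk16]
      ring
    · rw [hz, d2, d3, hk16, ← hs, ← hP]
      ring
  · obtain ⟨μ, ν, c1, c2, c3⟩ := h
    rcases hLIN k K htr w hw0 hwf' D l e e1 e2 κ Q s P μ ν a b p q hsm hSl hSe hSe1 hSe2 hSk hSQ
      c1 c2 c3 h21 hz hz2 hnS hnP with h | h
    · rw [← hW] at h
      exact hsmall h
    · obtain ⟨g1, g2⟩ := h
      obtain ⟨d1, d2, d3, d4, d5⟩ := hSQI k K D l e e1 κ Q μ ν hQ0 he1 c2 g1 g2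
      have hk0 : κ ≠ 0 := by
        rintro h0
        apply hQ0
        rw [d5, h0]; ring
      have hk1 : κ1 = 0 := by
        have h1 : e1 = -6 * κ1 := by
          rw [he1, hκ1, d3]
          unfold nab
          have h6 : D (-6 * κ) = -6 * D κ := by
            have : (-6 : K) = algebraMap k K (-6) := by rw [map_neg, map_ofNat]
            rw [this, D.leibniz, D.map_algebraMap, smul_zero, add_zero, smul_eq_mul]
          rw [h6]
          ring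
        rw [d4] at h1
        have h6 : (-6 : K) ≠ 0 := by norm_num
        rcases mul_eq_zero.1 h1.symm with h | h
        · exact absurd h h6
        · exact h
      refine hkap hk1 hk0 fun h => ?_
      obtain ⟨hl0, hk16⟩ := h
      have hP16 : P = 1 / 16 := by rw [c1, d1, d2, hk16]; ring
      have h7 : (7 : K) ≠ 0 := by norm_num
      apply hW1
      refine hW1I k K D p q a b X Y horb.x0 horb.y0 hXY hXY1 ha0 (hDp hl0 hk16) (hDq hl0 hk16) hab
        (hXYu hl0) ?_ ?_ ?_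
      · rw [← hP, hP16]
      · have h8 : 7 * (a + b) = 7 * (3 * (p + q) ^ 2 - 3 / 8) := by
          rw [h21, d3, hk16, ← hs, hP16]; ring
        exact mul_left_cancel₀ h7 h8
      · have h9 : (p - q) ^ 2 = s ^ 2 - 4 * P := by rw [hs, hP]; ring
        rw [h9, ← hs, hz, d3, d4, hk16, hP16]
        ring

end Pool.Agent.H30.FQ
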