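import Pool.Agent.H30.FQ.Targets2

/-!
# MP_70ba79_ag: the five exceptional curves contain curves of unbounded degree with `χ = 0`
-/

set_option autoImplicit false

namespace Pool.Agent.H30.FQ

open SC Pool.Agent.H27.LV Polynomial

/-! ### The vector field `t d/dt` on the rational function field -/

section Rat

variable (k : Type) [Field k]

/-- the rational function field -/
abbrev KK : Type := FractionRing k[X]

/-- the coordinate -/
noncomputable def tt : KK k := algebraMap k[X] (KK k) X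

/-- the homomorphism `f ↦ f + t f' ε` on polynomials -/
noncomputable def phi0 : k[X] →ₐ[k] TrivSqZeroExt (KK k) (KK k) :=
  Polynomial.aeval (TrivSqZeroExt.inl (tt k) + TrivSqZeroExt.inr (tt k))

lemma fst_phi0 (p : k[X]) : (phi0 k p).fst = algebraMap k[X] (KK k) p := by
  have h : ((TrivSqZeroExt.fstHom k (KK k) (KK k)).comp (phi0 k)) =
      (IsScalarTower.toAlgHom k k[X] (KK k)) := by
    apply Polynomial.algHom_ext
    simp [phi0, tt]
  exact congrArg (fun f : k[X] →ₐ[k] KK k => f p) h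

lemma unit_phi0 (y : nonZeroDivisors k[X]) : IsUnit ((phi0 k).toRingHom y) := by
  rw [TrivSqZeroExt.isUnit_iff_isUnit_fst]
  have h1 : ((phi0 k).toRingHom y).fst = algebraMap k[X] (KK k) y := fst_phi0 k y
  rw [h1, isUnit_iff_ne_zero]
  exact IsFractionRing.to_map_ne_zero_of_mem_nonZeroDivisors y.2

/-- the homomorphism `f ↦ f + t f' ε` -/
noncomputable def phi : KK k →+* TrivSqZeroExt (KK k) (KK k) :=
  IsLocalization.lift (M := nonZeroDivisors k[X]) (unit_phi0 k)

lemma phi_map (p : k[X]) : phi k (algebraMap k[X] (KK k) p) = phi0 k p :=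
  IsLocalization.lift_eq (M := nonZeroDivisors k[X]) (unit_phi0 k) p

lemma fst_phi (z : KK k) : (phi k z).fst = z := by
  have h : ((TrivSqZeroExt.fstHom (KK k) (KK k) (KK k)).toRingHom.comp (phi k)) =
      RingHom.id (KK k) := by
    apply IsLocalization.ringHom_ext (nonZeroDivisors k[X])
    refine RingHom.ext fun p => ?_
    simp [phi_map, fst_phi0]
  exact congrArg (fun f : KK k →+* KK k => f z) h

lemma phi_base (c : k) : phi k (algebraMap k (KK k) c) = algebraMap k _ c := by
  rw [IsScalarTower.algebraMap_apply k k[X] (KK k), phi_map]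
  exact (phi0 k).commutes c

/-- the vector field `t d/dt` -/
noncomputable def DD : Derivation k (KK k) (KK k) :=
  Derivation.mk'
    { toFun := fun z => (phi k z).snd
      map_add' := fun x y => by rw [map_add, TrivSqZeroExt.snd_add]
      map_smul' := fun c z => by
        rw [Algebra.smul_def, map_mul, phi_base, RingHom.id_apply, TrivSqZeroExt.snd_mul,
          TrivSqZeroExt.algebraMap_eq_inl']
        simp [Algebra.smul_def] }
    (fun x y => by
      change (phi k (x * y)).snd = x • (phi k y).snd + y • (phi k x).snd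
      rw [map_mul, TrivSqZeroExt.snd_mul, fst_phi, fst_phi]
      simp [mul_comm])

lemma DD_apply (z : KK k) : DD k z = (phi k z).snd := rfl

lemma DD_tt : DD k (tt k) = tt k := by
  rw [DD_apply]
  conv_lhs => rw [tt]
  rw [phi_map]
  unfold phi0
  rw [aeval_X]
  simp

instance : Algebra.EssFiniteType k (KK k) :=
  have : Algebra.EssFiniteType k[X] (KK k) :=
    Algebra.EssFiniteType.of_isLocalization (KK k) (nonZeroDivisors k[X])
  Algebra.EssFiniteType.comp k k[X] (KK k)

lemma trdeg_KK : Algebra.trdeg k (KK k) = 1 := by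
  have h1 := _root_.trdeg_add_eq k k[X] (A := KK k)
  have h2 : Algebra.trdeg k[X] (KK k) = 0 := by
    have : Algebra.IsAlgebraic k[X] (KK k) := IsLocalization.isAlgebraic _ (nonZeroDivisors k[X])
    exact trdeg_eq_zero
  rw [h2, Polynomial.trdeg_of_isDomain, add_zero] at h1
  exact h1.symm

lemma tt_transc (c : k) : tt k ≠ algebraMap k (KK k) c := by
  intro h
  rw [tt, IsScalarTower.algebraMap_apply k k[X] (KK k)] at h
  have h1 := IsFractionRing.injective k[X] (KK k) h
  have h2 := congrArg (fun p : k[X] => p.natDegree) h1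
  simp at h2

lemma tt_ne_zero : tt k ≠ 0 := by
  have := tt_transc k 0
  rwa [map_zero] at this

lemma tt_not_mem : tt k ∉ Set.range (algebraMap k (KK k)) := by
  rintro ⟨c, hc⟩
  exact tt_transc k c hc.symm

lemma DD_ne_zero : DD k ≠ 0 := by
  intro h
  have h1 := DD_tt k
  rw [h] at h1
  exact tt_ne_zero k h1.symm

variable {k}

/-- orders of polynomials in `t` at a place where `t - c` vanishes to order `m` -/
lemma dvd_ord_poly (v : DV k (KK k)) (c : k) (m : ℤ) (hm : 0 < m)
    (h : v.ord (tt k - algebraMap k (KK k) c) = m) (p : k[X]) :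
    m ∣ v.ord (algebraMap k[X] (KK k) p) := by
  by_cases hp : p = 0
  · rw [hp, map_zero, v.ord_zero]; exact dvd_zero _
  obtain ⟨q, hq, hdiv⟩ := Polynomial.exists_eq_pow_rootMultiplicity_mul_and_not_dvd p hp c
  obtain ⟨n, hn⟩ : ∃ n, n = p.rootMultiplicity c := ⟨_, rfl⟩
  rw [← hn] at hq
  have hq0 : q.eval c ≠ 0 := by
    rwa [Ne, ← IsRoot.def, ← dvd_iff_isRoot]
  have hXc : algebraMap k[X] (KK k) (X - C c) = tt k - algebraMap k (KK k) c := by
    rw [map_sub, tt]
    rfl
  have hreg : ∀ r : k[X], 0 ≤ v.ord (algebraMap k[X] (KK k) r) := by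
    intro r
    have hreg' : 0 ≤ v.ord (tt k) := by
      have h2 : tt k = (tt k - algebraMap k (KK k) c) + algebraMap k (KK k) c := by ring
      rw [h2]
      exact v.ord_add_nonneg (by omega) (by rw [v.ord_base])
    induction r using Polynomial.induction_on' with
    | add p q hp hq => rw [map_add]; exact v.ord_add_nonneg hp hq
    | monomial n a =>
      rw [← C_mul_X_pow_eq_monomial, map_mul, map_pow]
      refine v.ord_mul_nonneg ?_ (v.ord_pow_nonneg hreg' n)
      change 0 ≤ v.ord (algebraMap k (KK k) a)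
      rw [v.ord_base]
  have hqo : v.ord (algebraMap k[X] (KK k) q) = 0 := by
    obtain ⟨r, hr⟩ : ∃ r, q = (X - C c) * r + C (q.eval c) := by
      obtain ⟨r, hr⟩ := Polynomial.X_sub_C_dvd_sub_C_eval (a := c) (p := q)
      exact ⟨r, by rw [← hr]; ring⟩
    have h1 : algebraMap k[X] (KK k) q = algebraMap k (KK k) (q.eval c) +
        algebraMap k[X] (KK k) ((X - C c) * r) := by
      conv_lhs => rw [hr]
      rw [map_add, add_comm]
      rfl
    have h2 : algebraMap k (KK k) (q.eval c) ≠ 0 := by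
      rwa [Ne, map_eq_zero]
    rw [h1, (v.ord_add_eq_left h2 ?_).2, v.ord_base]
    intro h3
    rw [v.ord_base, map_mul, v.ord_mul', hXc, h]
    · have := hreg r
      omega
    · rw [map_mul] at h3; exact left_ne_zero_of_mul h3
    · rw [map_mul] at h3; exact right_ne_zero_of_mul h3
  have hqn : algebraMap k[X] (KK k) q ≠ 0 := by
    intro h0
    have := IsFractionRing.injective k[X] (KK k) (h0.trans (map_zero _).symm)
    rw [this] at hq0
    simp at hq0
  have hXn : algebraMap k[X] (KK k) (X - C c) ≠ 0 := by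
    rw [hXc]
    intro h0
    exact tt_transc k c (sub_eq_zero.1 h0)
  rw [hq, map_mul, map_pow, v.ord_mul' (pow_ne_zero _ hXn) hqn, hqo, v.ord_pow, hXc, h, add_zero]
  exact dvd_mul_left _ _

variable [IsAlgClosed k] [CharZero k]

/-- orders of the vector field `t d/dt` -/
lemma ordD_DD (v : DV k (KK k)) : ordD v (DD k) = if v.ord (tt k) = 0 then 0 else 1 := by
  obtain ⟨-, -, h2⟩ := dor k (KK k) (trdeg_KK k) (DD k) (DD_ne_zero k) v
  split_ifs with h
  · obtain ⟨c, hc⟩ := (rat k (KK k) (trdeg_KK k) v).2 (tt k) h.ge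
    have hne : tt k - algebraMap k (KK k) c ≠ 0 := fun h0 => tt_transc k c (sub_eq_zero.1 h0)
    obtain ⟨m, hm⟩ : ∃ m, m = v.ord (tt k - algebraMap k (KK k) c) := ⟨_, rfl⟩
    have hm1 : 1 ≤ m := by rw [hm]; exact hc.resolve_left hne
    have h3 := h2 (tt k - algebraMap k (KK k) c) (by omega)
    rw [map_sub, Derivation.map_algebraMap, sub_zero, DD_tt, h, ← hm] at h3
    have hm' : m = 1 := by
      obtain ⟨x, hx, hx1⟩ := v.ord_surj
      obtain ⟨a, b, hb, hab⟩ := IsFractionRing.div_surjective (A := k[X]) x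
      have ha0 : algebraMap k[X] (KK k) a ≠ 0 := by
        intro h0; rw [h0, zero_div] at hab; exact hx hab.symm
      have hb0 : algebraMap k[X] (KK k) b ≠ 0 :=
        IsFractionRing.to_map_ne_zero_of_mem_nonZeroDivisors hb
      rw [← hab, v.ord_div ha0 hb0] at hx1
      have h4 := dvd_sub (dvd_ord_poly v c m (by omega) hm.symm a)
        (dvd_ord_poly v c m (by omega) hm.symm b)
      rw [hx1] at h4
      exact Int.eq_one_of_dvd_one (by omega) h4
    omega
  · have h3 := (h2 (tt k) h).2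
    rw [DD_tt] at h3
    omega

end Rat

section Pole

variable {k K : Type} [Field k] [IsAlgClosed k] [CharZero k] [Field K] [Algebra k K]
  [Algebra.EssFiniteType k K]

/-- a nonconstant function has a pole -/
lemma exists_pole' (htr : Algebra.trdeg k K = 1) {z : K} (hz : z ∉ Set.range (algebraMap k K)) :
    ∃ v : DV k K, v.ord z < 0 := by
  have hzt : Transcendental k z := by
    intro halg
    apply hz
    have h1 : (minpoly k z).degree = 1 := IsAlgClosed.degree_eq_one_of_irreducible k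
      (minpoly.irreducible halg.isIntegral)
    obtain ⟨c, hc⟩ := minpoly.mem_range_of_degree_eq_one k z h1
    exact ⟨c, hc⟩
  have hfd := Pool.Agent.H36.SC.fin_of_transc htr hzt
  obtain ⟨-, -, h⟩ := Pool.Agent.H76.KN.v5 k K z hzt hfd
  by_contra hcon
  push Not at hcon
  have h0 : ∑ᶠ v : DV k K, (v.deg : ℤ) * max 0 (- v.ord z) = 0 := by
    apply finsum_eq_zero_of_forall_eq_zero
    intro v
    rw [max_eq_left (by have := hcon v; omega), mul_zero]
  rw [h0] at h
  have h1 : 0 < Module.finrank (IntermediateField.adjoin k {z}) K := Module.finrank_pos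
  omega

lemma poleOrder_le_deg (htr : Algebra.trdeg k K = 1) (v : DV k K) (X Y : K) :
    poleOrder v ![X, Y] ≤ deg k ![X, Y] :=
  single_le_finsum v (pfi k K htr (Fin 2) ![X, Y]) fun _ => Nat.zero_le _

omit [IsAlgClosed k] [CharZero k] [Algebra.EssFiniteType k K] in
lemma neg_ord_le_poleOrder (v : DV k K) (X Y : K) :
    -(v.ord X) ≤ poleOrder v ![X, Y] ∧ -(v.ord Y) ≤ poleOrder v ![X, Y] := by
  constructor
  · have h := Finset.le_sup (f := fun i => (-(v.ord (![X, Y] i))).toNat)
      (Finset.mem_univ (0 : Fin 2))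
    have h1 : (-(v.ord X)).toNat ≤ poleOrder v ![X, Y] := h
    omega
  · have h := Finset.le_sup (f := fun i => (-(v.ord (![X, Y] i))).toNat)
      (Finset.mem_univ (1 : Fin 2))
    have h1 : (-(v.ord Y)).toNat ≤ poleOrder v ![X, Y] := h
    omega

omit [IsAlgClosed k] [CharZero k] [Algebra.EssFiniteType k K] in
/-- the point `(A ^ 4 / (c s), - B ^ 4 / (c s))` -/
lemma orb_of {S : Finset (DV k K)} {c s A B u : K} (hc : ∃ c0 : k, c0 ≠ 0 ∧ c = algebraMap k K c0)
    (hs0 : s ≠ 0) (hA0 : A ≠ 0) (hB0 : B ≠ 0) (hs : ∀ v, v ∉ S → v.ord s = 0)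
    (hA : ∀ v, v ∉ S → 0 ≤ v.ord A) (hB : ∀ v, v ∉ S → 0 ≤ v.ord B) (hu0 : u ≠ 0)
    (hu : ∀ v, v ∉ S → v.ord u = 0)
    (h : A ^ 4 / (c * s) + -B ^ 4 / (c * s) - 1 = u) : Orb S (A ^ 4 / (c * s)) (-B ^ 4 / (c * s)) := by
  obtain ⟨c0, hc0, rfl⟩ := hc
  have hcK : algebraMap k K c0 ≠ 0 := by rwa [Ne, map_eq_zero]
  have hcs : algebraMap k K c0 * s ≠ 0 := mul_ne_zero hcK hs0
  refine ⟨div_ne_zero (pow_ne_zero _ hA0) hcs, div_ne_zero (neg_ne_zero.2 (pow_ne_zero _ hB0)) hcs,
    by rwa [h], fun v hv => by rw [h]; exact hu v hv, fun v hv => ?_, fun v hv => ?_⟩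
  · rw [v.ord_div (pow_ne_zero _ hA0) hcs, v.ord_pow, v.ord_mul' hcK hs0, v.ord_base, hs v hv]
    have := hA v hv
    push_cast
    omega
  · rw [v.ord_div (neg_ne_zero.2 (pow_ne_zero _ hB0)) hcs, v.ord_neg, v.ord_pow,
      v.ord_mul' hcK hs0, v.ord_base, hs v hv]
    have := hB v hv
    push_cast
    omega

end Pole

theorem shp : T_SHP := by
  intro k _ _ _ N
  have htr := trdeg_KK k
  have hfin := (pfm k (KK k) htr (tt k)).1
  obtain ⟨S, hS⟩ : ∃ S : Finset (DV k (KK k)), ∀ v, v ∈ S ↔ v.ord (tt k) ≠ 0 :=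
    ⟨hfin.toFinset, fun v => by simp⟩
  have hcan : canDeg (DD k) + S.card = 0 := by
    have h1 : canDeg (DD k) = -∑ᶠ v : DV k (KK k), (if v.ord (tt k) = 0 then (0 : ℤ) else 1) := by
      unfold canDeg
      congr 1
      exact finsum_congr fun v => ordD_DD v
    have h2 : ∑ᶠ v : DV k (KK k), (if v.ord (tt k) = 0 then (0 : ℤ) else 1) = S.card := by
      rw [finsum_eq_sum_of_support_subset (s := S)]
      · rw [Finset.card_eq_sum_ones, Nat.cast_sum]
        refine Finset.sum_congr rfl fun v hv => ?_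
        rw [if_neg ((hS v).1 hv)]
        simp
      · intro v hv
        rw [Function.mem_support] at hv
        rw [Finset.mem_coe, hS]
        intro h0
        rw [if_pos h0] at hv
        exact hv rfl
    rw [h1, h2]
    ring
  obtain ⟨v0, hv0⟩ := exists_pole' htr (tt_not_mem k)
  obtain ⟨s, hs⟩ : ∃ s, s = tt k ^ (N + 1) := ⟨_, rfl⟩
  have hs0 : s ≠ 0 := by rw [hs]; exact pow_ne_zero _ (tt_ne_zero k)
  have hso : ∀ v, v ∉ S → v.ord s = 0 := by
    intro v hv
    rw [hS, not_not] at hv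
    rw [hs, v.ord_pow, hv, mul_zero]
  have hsv : v0.ord s ≤ -(N : ℤ) - 1 := by
    rw [hs, v0.ord_pow]
    push_cast
    nlinarith
  have hNle : ∀ X Y : KK k, (N : ℤ) ≤ poleOrder v0 ![X, Y] → N ≤ deg k ![X, Y] := by
    intro X Y h
    have := poleOrder_le_deg htr v0 X Y
    omega
  have hu : ∀ X Y u : KK k, X + Y - 1 = u → u ≠ 0 → v0.ord u ≤ -(N : ℤ) - 1 →
      (N : ℤ) ≤ poleOrder v0 ![X, Y] := by
    intro X Y u h hu0 hu1
    by_contra hcon
    push Not at hcon
    obtain ⟨h1, h2⟩ := neg_ord_le_poleOrder v0 X Y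
    have h3 : ge v0 (-(N : ℤ)) u := by
      rw [← h]
      refine (ge.add ?_ ?_).sub ((ge_one v0).mono (by omega))
      · exact (ge_of_ord v0).mono (by omega)
      · exact (ge_of_ord v0).mono (by omega)
    have h4 := h3.resolve_left hu0
    omega
  have h80 : ∃ c0 : k, c0 ≠ 0 ∧ (8 : KK k) = algebraMap k (KK k) c0 :=
    ⟨8, by norm_num, by rw [map_ofNat]⟩
  have hsp : ∀ n : ℕ, 1 ≤ n → v0.ord (s ^ n) ≤ -(N : ℤ) - 1 := by
    intro n hn
    rw [v0.ord_pow]
    have : (1 : ℤ) ≤ n := by exact_mod_cast hn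
    nlinarith
  refine ⟨KK k, inferInstance, inferInstance, inferInstance, S, DD k, htr, DD_ne_zero k, hcan,
    ?_, ?_, ?_, ?_, ?_⟩
  · refine ⟨1, s, ⟨one_ne_zero, hs0, by simpa using hs0, fun v hv => by simpa using hso v hv,
      fun v hv => Or.inl (by rw [v.ord_one]), fun v hv => Or.inl (hso v hv)⟩, hNle _ _ ?_, rfl⟩
    have := (neg_ord_le_poleOrder v0 1 s).2
    omega
  · refine ⟨s, 1, ⟨hs0, one_ne_zero, by simpa using hs0, fun v hv => by simpa using hso v hv,
      fun v hv => Or.inl (hso v hv), fun v hv => Or.inl (by rw [v.ord_one])⟩, hNle _ _ ?_, rfl⟩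
    have := (neg_ord_le_poleOrder v0 s 1).1
    omega
  · refine ⟨s, -s, ⟨hs0, neg_ne_zero.2 hs0, by simp, fun v hv => by simp [v.ord_neg_one],
      fun v hv => Or.inl (hso v hv), fun v hv => Or.inl (by rw [v.ord_neg, hso v hv])⟩,
      hNle _ _ ?_, by ring⟩
    have := (neg_ord_le_poleOrder v0 s (-s)).1
    omega
  · have hA : s + 1 ≠ 0 := by
      intro h
      have h1 : s = -1 := by linear_combination h
      rw [h1, v0.ord_neg_one] at hsv
      omega
    have hB : s - 1 ≠ 0 := by
      intro h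
      have h1 : s = 1 := by linear_combination h
      rw [h1, v0.ord_one] at hsv
      omega
    have he : (s + 1) ^ 4 / (8 * s) + -(s - 1) ^ 4 / (8 * s) - 1 = s ^ 2 := by
      field_simp
      ring
    refine ⟨_, _, orb_of h80 hs0 hA hB hso
      (fun v hv => v.ord_add_nonneg (hso v hv).ge (by rw [v.ord_one]))
      (fun v hv => v.ord_sub_nonneg (hso v hv).ge (by rw [v.ord_one])) (pow_ne_zero 2 hs0)
      (fun v hv => by rw [v.ord_pow, hso v hv, mul_zero]) he,
      hNle _ _ (hu _ _ _ he (pow_ne_zero 2 hs0) (hsp 2 (by norm_num))), s, he, ?_, ?_⟩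
    · field_simp
    · field_simp
  · obtain ⟨ω, hω⟩ := IsAlgClosed.exists_pow_nat_eq (-3 : k) (n := 2) (by norm_num)
    have hω0 : ω ≠ 0 := by
      rintro rfl
      norm_num at hω
    obtain ⟨z, hz⟩ : ∃ z, z = algebraMap k (KK k) ω := ⟨_, rfl⟩
    have hz2 : z ^ 2 = -3 := by
      rw [hz, ← map_pow, hω, map_neg, map_ofNat]
    have hz0 : z ≠ 0 := by
      rw [hz, Ne, map_eq_zero]; exact hω0
    have hzo : ∀ v : DV k (KK k), v.ord z = 0 := fun v => by rw [hz, v.ord_base]
    have h8z : ∃ c0 : k, c0 ≠ 0 ∧ 8 * z = algebraMap k (KK k) c0 :=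
      ⟨8 * ω, mul_ne_zero (by norm_num) hω0, by rw [map_mul, map_ofNat, hz]⟩
    have hM : ∀ y : KK k, v0.ord y = 0 → s ^ 2 + y * s + 1 ≠ 0 := by
      intro y hy h
      have h1 : s ^ 2 = -(y * s) - 1 := by linear_combination h
      have h2 : ge v0 (v0.ord s) (s ^ 2) := by
        rw [h1]
        refine ge.sub (ge.neg ?_) ((ge_one v0).mono (by omega))
        have := (ge_of_ord v0 (x := y)).mul (ge_of_ord v0 (x := s))
        rwa [hy, zero_add] at this
      have h3 := h2.resolve_left (pow_ne_zero 2 hs0)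
      rw [v0.ord_pow] at h3
      push_cast at h3
      omega
    have hA := hM z (hzo v0)
    have hB : s ^ 2 - z * s + 1 ≠ 0 := by
      have := hM (-z) (by rw [v0.ord_neg, hzo v0])
      intro h
      apply this
      linear_combination h
    have he : (s ^ 2 + z * s + 1) ^ 4 / (8 * z * s) + -(s ^ 2 - z * s + 1) ^ 4 / (8 * z * s) - 1 =
        s ^ 6 := by
      have h1 : 8 * z * s ≠ 0 := mul_ne_zero (mul_ne_zero (by norm_num) hz0) hs0
      rw [← add_div, sub_eq_iff_eq_add, div_eq_iff h1]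
      linear_combination (8 * s * z * (s ^ 2 * (s ^ 2 + 1))) * hz2
    have hreg : ∀ (v : DV k (KK k)) (y : KK k), v ∉ S → v.ord y = 0 →
        0 ≤ v.ord (s ^ 2 + y * s + 1) := by
      intro v y hv hy
      refine v.ord_add_nonneg (v.ord_add_nonneg (v.ord_pow_nonneg (hso v hv).ge 2)
        (v.ord_mul_nonneg hy.ge (hso v hv).ge)) (by rw [v.ord_one])
    refine ⟨_, _, orb_of h8z hs0 hA hB hso (fun v hv => hreg v z hv (hzo v))
      (fun v hv => ?_) (pow_ne_zero 6 hs0)
      (fun v hv => by rw [v.ord_pow, hso v hv, mul_zero]) he,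
      hNle _ _ (hu _ _ _ he (pow_ne_zero 6 hs0) (hsp 6 (by norm_num))), ω, hω, s, he, ?_, ?_⟩
    · have := hreg v (-z) hv (by rw [v.ord_neg, hzo v])
      have h2 : s ^ 2 + -z * s + 1 = s ^ 2 - z * s + 1 := by ring
      rwa [h2] at this
    · rw [← hz]
      field_simp
    · rw [← hz]
      field_simp

end Pool.Agent.H30.FQ
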