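import Pool.Agent.H30.FQ.Targets

/-!
# MP_70ba79_ag: targets of the board `fq_modules`, second part: main theorem, affine surfaces
-/

set_option autoImplicit false

namespace Pool.Agent.H30.FQ

open SC Pool.Agent.H27.LV

/-- MAIN: the degree bound on the orbifold `(P^2; ∞, ∞, 4, 4)` -/
def T_MAIN : Prop := ∀ (k K : Type) [Field k] [IsAlgClosed k] [CharZero k] [Field K] [Algebra k K]
  [Algebra.EssFiniteType k K], Algebra.trdeg k K = 1 → ∀ (S : Finset (DV k K)) (X Y : K),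
  Orb S X Y → ¬ (X ∈ Set.range (algebraMap k K) ∧ Y ∈ Set.range (algebraMap k K)) →
  X ≠ 1 → Y ≠ 1 → X + Y ≠ 0 → ¬ W1 X Y → ¬ W0 k X Y → ∀ D : Derivation k K K, D ≠ 0 →
  (deg k ![X, Y] : ℤ) ≤ 653 * (canDeg D + S.card)

/-- EXC: the exceptional curves are algebraic -/
def T_EXC : Prop := ∀ (k : Type) [Field k] [CharZero k], ∃ E : MvPolynomial (Fin 2) k, E ≠ 0 ∧
  ∀ (K : Type) [Field K] [Algebra k K] (X Y : K), (W1 X Y ∨ W0 k X Y) →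
    MvPolynomial.aeval ![X, Y] E = 0

/-- ALB: poles of algebraic functions of `X`, `Y` -/
def T_ALB : Prop := ∀ (k K : Type) [Field k] [IsAlgClosed k] [CharZero k] [Field K] [Algebra k K]
  [Algebra.EssFiniteType k K], Algebra.trdeg k K = 1 → ∀ (d : ℕ)
  (p : Polynomial (MvPolynomial (Fin 2) k)) (X Y z : K), (∀ i, (p.coeff i).totalDegree ≤ d) →
  MvPolynomial.aeval ![X, Y] p.leadingCoeff ≠ 0 →
  (p.map (MvPolynomial.aeval (R := k) ![X, Y]).toRingHom).eval z = 0 →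
  hh k z ≤ d * deg k ![X, Y]

/-- `f` is locally (on the spectrum of `A`) a unit times a product of powers with exponents at
least `m` -/
def LocFull {A : Type} [CommRing A] (m : ℕ) (f : A) : Prop :=
  ∀ P : Ideal A, P.IsMaximal → ∃ (s t : A) (n : ℕ) (g : Fin n → A) (μ : Fin n → ℕ),
    s ∉ P ∧ t ∉ P ∧ (∀ i, m ≤ μ i) ∧ s * f = t * ∏ i, g i ^ μ i

/-- SRF: affine surfaces over the orbifold -/
def T_SRF : Prop := ∀ (k : Type) [Field k] [IsAlgClosed k] [CharZero k] (A : Type) [CommRing A]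
  [IsDomain A] [Algebra k A] (n : ℕ) (x : Fin n → A), Algebra.adjoin k (Set.range x) = ⊤ →
  Algebra.trdeg k A = 2 → ∀ f g : A, AlgebraicIndependent k ![f, g] → LocFull 4 f → LocFull 4 g →
  IsUnit (f + g - 1) → ∃ (N : ℕ) (ψ : A), ψ ≠ 0 ∧
  ∀ (K : Type) [Field K] [Algebra k K] [Algebra.EssFiniteType k K], Algebra.trdeg k K = 1 →
  ∀ (S : Finset (DV k K)) (φ : A →ₐ[k] K), (∀ v, v ∉ S → ∀ a, 0 ≤ v.ord (φ a)) → φ ψ ≠ 0 →
  (∃ a, φ a ∉ Set.range (algebraMap k K)) → ∀ D : Derivation k K K, D ≠ 0 →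
  (deg k (fun i => φ (x i)) : ℤ) ≤ N * (canDeg D + S.card)

/-- CRV: the complement of the curve `x ^ m + y ^ n = 1` -/
def T_CRV : Prop := ∀ (k K : Type) [Field k] [IsAlgClosed k] [CharZero k] [Field K] [Algebra k K]
  [Algebra.EssFiniteType k K], Algebra.trdeg k K = 1 → ∀ (S : Finset (DV k K)) (m n : ℕ) (x y : K),
  4 ≤ m → 4 ≤ n → (∀ v, v ∉ S → 0 ≤ v.ord x ∧ 0 ≤ v.ord y) → x ≠ 0 → y ≠ 0 →
  x ^ m + y ^ n ≠ 1 → (∀ v, v ∉ S → v.ord (x ^ m + y ^ n - 1) = 0) →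
  ¬ (x ∈ Set.range (algebraMap k K) ∧ y ∈ Set.range (algebraMap k K)) →
  x ^ m ≠ 1 → y ^ n ≠ 1 → x ^ m + y ^ n ≠ 0 → ¬ W1 (x ^ m) (y ^ n) → ¬ W0 k (x ^ m) (y ^ n) →
  ∀ D : Derivation k K K, D ≠ 0 → 4 * (deg k ![x, y] : ℤ) ≤ 653 * (canDeg D + S.card)

/-- SHP: each of the five exceptional curves contains images of curves with `χ = 0` of arbitrarily
large degree -/
def T_SHP : Prop := ∀ (k : Type) [Field k] [IsAlgClosed k] [CharZero k] (N : ℕ),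
  ∃ (K : Type) (_ : Field K) (_ : Algebra k K) (_ : Algebra.EssFiniteType k K)
    (S : Finset (DV k K)) (D : Derivation k K K), Algebra.trdeg k K = 1 ∧ D ≠ 0 ∧
    canDeg D + S.card = 0 ∧
    (∃ X Y : K, Orb S X Y ∧ N ≤ deg k ![X, Y] ∧ X = 1) ∧
    (∃ X Y : K, Orb S X Y ∧ N ≤ deg k ![X, Y] ∧ Y = 1) ∧
    (∃ X Y : K, Orb S X Y ∧ N ≤ deg k ![X, Y] ∧ X + Y = 0) ∧
    (∃ X Y : K, Orb S X Y ∧ N ≤ deg k ![X, Y] ∧ W1 X Y) ∧
    (∃ X Y : K, Orb S X Y ∧ N ≤ deg k ![X, Y] ∧ W0 k X Y)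

end Pool.Agent.H30.FQ
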