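import Pool.Agent.H30.FQ.ALG
import Pool.Agent.H30.FQ.MAIN
import Pool.Agent.H30.FQ.SHP
import Pool.Agent.H12.FQ.PGD
import Pool.Agent.H12.FQ.SMP
import Pool.Agent.H12.FQ.ZHI
import Pool.Agent.H31.FQ.ALB
import Pool.Agent.H31.FQ.CRV
import Pool.Agent.H31.FQ.FIN
import Pool.Agent.H33.FQ.EGD
import Pool.Agent.H33.FQ.FIL
import Pool.Agent.H33.FQ.QBD
import Pool.Agent.H35.FQ.GZR
import Pool.Agent.H35.FQ.QSM
import Pool.Agent.H48.FQ.HHI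
import Pool.Agent.H48.FQ.KAP
import Pool.Agent.H48.FQ.ROOT
import Pool.Agent.H62.FQ.CAA
import Pool.Agent.H62.FQ.SYS
import Pool.Agent.H64.FQ.EBD
import Pool.Agent.H64.FQ.LMU
import Pool.Agent.H86.FQ.ELM
import Pool.Agent.H86.FQ.LIN
import Pool.Agent.H93.FQ.EXC
import Pool.Agent.H93.FQ.SMD

/-!
# MP_70ba79_ag: assembly of the modules
-/

set_option autoImplicit false

namespace Pool.Agent.H30.FQ

theorem tQBD : T_QBD := Pool.Agent.H33.FQ.QBD.t_qbd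
theorem tHHI : T_HHI := Pool.Agent.H48.FQ.HHI.hhi
theorem tROOT : T_ROOT := Pool.Agent.H48.FQ.ROOT.root
theorem tSMP : T_SMP := Pool.Agent.H12.FQ.smp
theorem tQSM : T_QSM := Pool.Agent.H35.FQ.qsm
theorem tFIL : T_FIL := Pool.Agent.H33.FQ.FIL.t_fil
theorem tPGD : T_PGD := Pool.Agent.H12.FQ.pgd tQBD

theorem tMAIN' (hSQI : T_SQI) (hW0I : T_W0I) : T_MAIN :=
  main Pool.Agent.H62.FQ.sys alg tQSM Pool.Agent.H64.FQ.ebd (Pool.Agent.H33.FQ.EGD.t_egd tQBD)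
    Pool.Agent.H35.FQ.cvp Pool.Agent.H35.FQ.wsm Pool.Agent.H93.FQ.smd tHHI
    (Pool.Agent.H31.FQ.fin tFIL tQSM tHHI) (Pool.Agent.H12.FQ.zhi tQBD tPGD tHHI)
    (Pool.Agent.H35.FQ.gzr tHHI) (Pool.Agent.H64.FQ.lmu tHHI) (Pool.Agent.H48.FQ.KAP.kap tHHI)
    (Pool.Agent.H86.FQ.ELM.elm tSMP tROOT) (Pool.Agent.H86.FQ.LIN.lin tSMP tROOT) hSQI
    Pool.Agent.H62.FQ.caa Pool.Agent.H62.FQ.w1i hW0I

end Pool.Agent.H30.FQ
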