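import Pool.Agent.H27.LV.Curve
import Pool.Agent.H58.LV.DFI

/-!
# MP_70ba79_ag: the orbifold `(P^2; ∞, ∞, 4, 4)`; common definitions of the board `fq_modules`

Places are the discrete valuations `SC.DV k K`; `ge v t x`, `ordD`, `canDeg`, `poleOrder`, `deg`,
`DOrd` are those of `Pool/Agent/H27/LV/Defs.lean`; the basic lemmas `ge.add`, `ge.mul`, … and the
theorems `pfm` (product formula), `dor` (orders of derivatives), `ker` (constants) are in
`Pool/Agent/H27/LV/Curve.lean`, the API of valuations in `Pool/Agent/H64/SC/Api.lean`.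
-/

set_option autoImplicit false

namespace Pool.Agent.H30.FQ

open SC Pool.Agent.H27.LV Polynomial

section

variable {k K : Type} [Field k] [Field K] [Algebra k K]

/-- number of poles of `x` (`0` if `x = 0`) -/
noncomputable def hh (k : Type) {K : Type} [Field k] [Field K] [Algebra k K] (x : K) : ℤ :=
  ∑ᶠ v : DV k K, max 0 (-(v.ord x))

open Classical in
/-- the order at `v` of the vector field `D` with a simple zero allowed at the places of `S`,
with the opposite sign -/
noncomputable def cc (S : Finset (DV k K)) (D : Derivation k K K) (v : DV k K) : ℤ :=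
  (if v ∈ S then 1 else 0) - ordD v D

open Classical in
/-- order of `x` outside `S` -/
noncomputable def oo (S : Finset (DV k K)) (x : K) (v : DV k K) : ℤ :=
  if v ∈ S then 0 else v.ord x

/-- number of zeros (minus number of poles) of `x` outside `S` -/
noncomputable def ZZ (S : Finset (DV k K)) (x : K) : ℤ := ∑ᶠ v : DV k K, oo S x v

/-- `f` is small of weight `j`: order at least `- 2 j w v` at every place `v` -/
def Sm (w : DV k K → ℤ) (j : ℕ) (f : K) : Prop := ∀ v, ge v (-(2 * j * w v)) f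

/-- polynomial of weight `ω` in a variable of weight `1` with small coefficients -/
def SmP (w : DV k K → ℤ) (ω : ℕ) (p : K[X]) : Prop :=
  p.natDegree ≤ ω ∧ ∀ i ≤ ω, Sm w (ω - i) (p.coeff i)

/-- covariant derivative of an element of weight `j` -/
def nab (D : Derivation k K K) (l : K) (j : ℕ) (f : K) : K := D f - j * l * f

/-- `G = X'' - X'` -/
def gg (D : Derivation k K K) (X : K) : K := D (D X) - D X

/-- `Q = G ^ 2 / (16 X Y)` -/
def QQ (D : Derivation k K K) (X Y : K) : K := gg D X ^ 2 / (16 * X * Y)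

/-- `ℓ = Q' / (4 Q)` -/
def ll (D : Derivation k K K) (X Y : K) : K := D (QQ D X Y) / (4 * QQ D X Y)

def aa (D : Derivation k K K) (X : K) : K := gg D X / (4 * X)

/-- `b = - G / (4 Y)` -/
def bb (D : Derivation k K K) (X Y : K) : K := - gg D X / (4 * Y)

def pp (D : Derivation k K K) (X Y : K) : K := D X / (4 * X) - (1 - ll D X Y) / 8

def qq (D : Derivation k K K) (X Y : K) : K := D Y / (4 * Y) - (1 - ll D X Y) / 8

def kk (D : Derivation k K K) (X Y : K) : K := (1 - ll D X Y ^ 2 + 2 * D (ll D X Y)) / 16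

/-- the function which is small although `p`, `q`, `a`, `b` have poles -/
def ee (D : Derivation k K K) (X Y : K) : K :=
  7 * (aa D X + bb D X Y) - 12 * (pp D X Y + qq D X Y) ^ 2 - 9 * (pp D X Y - qq D X Y) ^ 2

/-- the differential system satisfied by `pp`, `qq`, `aa`, `bb`, `ll`, `kk`, `QQ` -/
structure IsSys (D : Derivation k K K) (p q a b l κ Q : K) : Prop where
  dp : D p = a - 4 * p ^ 2 + l * p + κ
  dq : D q = b - 4 * q ^ 2 + l * q + κ
  da : D a = a * (2 * l + 2 * q - 2 * p)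
  db : D b = b * (2 * l + 2 * p - 2 * q)
  hQ : a * b = -Q
  dl : 16 * κ = 1 - l ^ 2 + 2 * D l

/-- local hypotheses at a place: `s = 1` at the places of `S`, `s = 0` at the others -/
structure Loc (v : DV k K) (D : Derivation k K K) (s c : ℤ) (X Y : K) : Prop where
  dord : DOrd v D (s - c)
  dex : ∀ z : K, v.ord z ≠ 0 → D z ≠ 0 ∧ v.ord (D z) = v.ord z - 1 + (s - c)
  c0 : 0 ≤ c
  x0 : X ≠ 0
  y0 : Y ≠ 0
  u0 : X + Y - 1 ≠ 0
  du : D X + D Y = X + Y - 1
  g0 : gg D X ≠ 0
  alt : s = 1 ∨ (s = 0 ∧ v.ord (X + Y - 1) = 0 ∧ (v.ord X = 0 ∨ 4 ≤ v.ord X) ∧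
    (v.ord Y = 0 ∨ 4 ≤ v.ord Y))

/-- integral points of the orbifold: `X`, `Y` are regular outside `S` with zeros of order at least
`4` and `X + Y - 1` is a unit outside `S` -/
structure Orb (S : Finset (DV k K)) (X Y : K) : Prop where
  x0 : X ≠ 0
  y0 : Y ≠ 0
  u0 : X + Y - 1 ≠ 0
  ou : ∀ v, v ∉ S → v.ord (X + Y - 1) = 0
  ox : ∀ v, v ∉ S → v.ord X = 0 ∨ 4 ≤ v.ord X
  oy : ∀ v, v ∉ S → v.ord Y = 0 ∨ 4 ≤ v.ord Y

/-- the first exceptional rational curve -/
def W1 (X Y : K) : Prop :=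
  ∃ s : K, X + Y - 1 = s ^ 2 ∧ 8 * s * X = (s + 1) ^ 4 ∧ 8 * s * Y = -(s - 1) ^ 4

/-- the second exceptional rational curve -/
def W0 (k : Type) {K : Type} [Field k] [Field K] [Algebra k K] (X Y : K) : Prop :=
  ∃ ω : k, ω ^ 2 = -3 ∧ ∃ s : K, X + Y - 1 = s ^ 6 ∧
    8 * algebraMap k K ω * s * X = (s ^ 2 + algebraMap k K ω * s + 1) ^ 4 ∧
    8 * algebraMap k K ω * s * Y = -(s ^ 2 - algebraMap k K ω * s + 1) ^ 4

/-! ### Elementary closure properties of small functions -/

lemma Sm.add {w : DV k K → ℤ} {j : ℕ} {f g : K} (hf : Sm w j f) (hg : Sm w j g) :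
    Sm w j (f + g) := fun v => (hf v).add (hg v)

lemma Sm.neg {w : DV k K → ℤ} {j : ℕ} {f : K} (hf : Sm w j f) : Sm w j (-f) :=
  fun v => (hf v).neg

lemma Sm.sub {w : DV k K → ℤ} {j : ℕ} {f g : K} (hf : Sm w j f) (hg : Sm w j g) :
    Sm w j (f - g) := fun v => (hf v).sub (hg v)

lemma Sm.mul {w : DV k K → ℤ} {i j : ℕ} {f g : K} (hf : Sm w i f) (hg : Sm w j g) :
    Sm w (i + j) (f * g) := fun v =>
  ((hf v).mul (hg v)).mono (by push_cast; linarith [mul_comm (i : ℤ) (w v)])

lemma sm_zero (w : DV k K → ℤ) (j : ℕ) : Sm w j (0 : K) := fun v => ge_zero v _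

lemma Sm.mono {w : DV k K → ℤ} (hw : ∀ v, 0 ≤ w v) {i j : ℕ} (hij : i ≤ j) {f : K}
    (hf : Sm w i f) : Sm w j f := fun v => (hf v).mono (by
  have h1 : (i : ℤ) ≤ j := by exact_mod_cast hij
  have := mul_le_mul_of_nonneg_right h1 (hw v)
  nlinarith)

lemma sm_const (w : DV k K → ℤ) (c : k) : Sm w 0 (algebraMap k K c) := fun v => by
  simpa using ge_const v c

lemma sm_ratCast [CharZero k] (w : DV k K → ℤ) (r : ℚ) :
    Sm w 0 (algebraMap k K (r : k)) := sm_const w _

lemma sm_natCast (w : DV k K → ℤ) (n : ℕ) : Sm w 0 (n : K) := by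
  have := sm_const w (n : k)
  rwa [map_natCast] at this

/-- multiplication by a constant does not change the weight -/
lemma Sm.const_mul {w : DV k K → ℤ} {j : ℕ} {f : K} (c : k) (hf : Sm w j f) :
    Sm w j (algebraMap k K c * f) := by
  have := (sm_const w c).mul hf
  rwa [zero_add] at this

lemma Sm.pow {w : DV k K → ℤ} {j : ℕ} {f : K} (hf : Sm w j f) (n : ℕ) : Sm w (n * j) (f ^ n) := by
  induction n with
  | zero =>
    have := sm_natCast (k := k) (K := K) w 1
    simpa using this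
  | succ n ih =>
    rw [pow_succ, Nat.succ_mul]
    exact ih.mul hf

end

end Pool.Agent.H30.FQ
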