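import Pool.Agent.H30.FQ.Targets2

/-!
# MP_70ba79_ag: the final statement
-/

set_option autoImplicit false

namespace Pool.Agent.H30.FQ

open SC Pool.Agent.H27.LV

/-- The zeros of `φ f` outside `S` have order at least `4`. It is enough that `f` is, locally on
the spectrum of `A`, a unit times a product of fourth and higher powers. -/
def Mult4 {k K A : Type} [Field k] [Field K] [Algebra k K] [CommRing A] [Algebra k A]
    (S : Finset (DV k K)) (φ : A →ₐ[k] K) (f : A) : Prop :=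
  LocFull 4 f ∨ ∀ v, v ∉ S → v.ord (φ f) = 0 ∨ 4 ≤ v.ord (φ f)

/-- SRG: affine surfaces over the orbifold -/
def T_SRG : Prop := ∀ (k : Type) [Field k] [IsAlgClosed k] [CharZero k] (A : Type) [CommRing A]
  [IsDomain A] [Algebra k A] (n : ℕ) (x : Fin n → A), Algebra.adjoin k (Set.range x) = ⊤ →
  Algebra.trdeg k A = 2 → ∀ f g : A, AlgebraicIndependent k ![f, g] → IsUnit (f + g - 1) →
  ∃ (N : ℕ) (ψ : A), ψ ≠ 0 ∧
  ∀ (K : Type) [Field K] [Algebra k K] [Algebra.EssFiniteType k K], Algebra.trdeg k K = 1 →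
  ∀ (S : Finset (DV k K)) (φ : A →ₐ[k] K), (∀ v, v ∉ S → ∀ a, 0 ≤ v.ord (φ a)) →
  Mult4 S φ f → Mult4 S φ g → ∀ D : Derivation k K K, D ≠ 0 →
  (φ ψ ≠ 0 → (∃ a, φ a ∉ Set.range (algebraMap k K)) →
    (deg k (fun i => φ (x i)) : ℤ) ≤ N * (canDeg D + S.card)) ∧
  (φ f ≠ 0 → φ g ≠ 0 → φ f ≠ 1 → φ g ≠ 1 → φ f + φ g ≠ 0 → ¬ W1 (φ f) (φ g) →
    ¬ W0 k (φ f) (φ g) →
    ¬ (φ f ∈ Set.range (algebraMap k K) ∧ φ g ∈ Set.range (algebraMap k K)) →
    (deg k ![φ f, φ g] : ℤ) ≤ 653 * (canDeg D + S.card))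

end Pool.Agent.H30.FQ
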