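import Pool.Agent.H30.FQ.All
import Pool.Agent.H30.FQ.Targets3
import Pool.Agent.H86.FQ.SRF
import Pool.Agent.H86.FQ.W0I
import Pool.Agent.H62.FQ.SQI

/-!
# MP_70ba79_ag: affine surfaces over the orbifold (general form, after SRF of helper86)
-/

set_option autoImplicit false

namespace Pool.Agent.H30.FQ

open SC Pool.Agent.H27.LV Pool.Agent.H86.FQ.SRF

/-- integral points of the orbifold from morphisms -/
lemma orb_of_map {k K A : Type} [Field k] [Field K] [Algebra k K] [CommRing A] [Algebra k A]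
    (S : Finset (DV k K)) (φ : A →ₐ[k] K) (hφ : ∀ v, v ∉ S → ∀ a, 0 ≤ v.ord (φ a)) {f g : A}
    (hf : Mult4 S φ f) (hg : Mult4 S φ g) (hu : IsUnit (f + g - 1)) (hX0 : φ f ≠ 0)
    (hY0 : φ g ≠ 0) : Orb S (φ f) (φ g) := by
  obtain ⟨U, hU⟩ := hu
  have hUU : φ U.val * φ U.inv = 1 := by
    rw [← map_mul, U.val_inv, map_one]
  have hu0 : φ f + φ g - 1 = φ U.val := by
    rw [show U.val = (U : A) from rfl, hU, map_sub, map_add, map_one]
  have hUne : φ U.val ≠ 0 := left_ne_zero_of_mul_eq_one hUU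
  have hUine : φ U.inv ≠ 0 := right_ne_zero_of_mul_eq_one hUU
  refine ⟨hX0, hY0, by rw [hu0]; exact hUne, ?_, ?_, ?_⟩
  · intro v hv
    rw [hu0]
    have h5 := congrArg v.ord hUU
    rw [v.ord_mul _ _ hUne hUine, v.ord_one] at h5
    have h6 := hφ v hv U.val
    have h7 := hφ v hv U.inv
    omega
  · intro v hv
    rcases hf with hf | hf
    · exact ord_of_locFull v φ (hφ v hv) hf hX0
    · exact hf v hv
  · intro v hv
    rcases hg with hg | hg
    · exact ord_of_locFull v φ (hφ v hv) hg hY0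
    · exact hg v hv

open Classical in
theorem srg (h1 : T_MAIN) (h2 : T_EXC) (h3 : T_ALB) (h4 : T_HHI) : T_SRG := by
  intro k _ _ _ A _ _ _ n x hx htr f g hfg hu
  obtain ⟨E, hE0, hE⟩ := h2 k
  choose p hp0 hp using fun i => exists_eq htr hfg (x i)
  obtain ⟨d, hd⟩ := exists_deg p
  let Ψ : MvPolynomial (Fin 2) k := MvPolynomial.X 0 * MvPolynomial.X 1 * (MvPolynomial.X 0 - 1) *
    (MvPolynomial.X 1 - 1) * (MvPolynomial.X 0 + MvPolynomial.X 1) * E * ∏ i, (p i).leadingCoeff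
  have hΨ : Ψ ≠ 0 := by
    have hX0 : (MvPolynomial.X 0 : MvPolynomial (Fin 2) k) ≠ 0 := MvPolynomial.X_ne_zero 0
    have hX1 : (MvPolynomial.X 1 : MvPolynomial (Fin 2) k) ≠ 0 := MvPolynomial.X_ne_zero 1
    have e0 : (MvPolynomial.X 0 - 1 : MvPolynomial (Fin 2) k) ≠ 0 := by
      intro h
      have := congrArg (MvPolynomial.eval ![(0 : k), 0]) h
      simp at this
    have e1 : (MvPolynomial.X 1 - 1 : MvPolynomial (Fin 2) k) ≠ 0 := by
      intro h
      have := congrArg (MvPolynomial.eval ![(0 : k), 0]) h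
      simp at this
    have e2 : (MvPolynomial.X 0 + MvPolynomial.X 1 : MvPolynomial (Fin 2) k) ≠ 0 := by
      intro h
      have := congrArg (MvPolynomial.eval ![(1 : k), 0]) h
      simp at this
    have e3 : ∏ i, (p i).leadingCoeff ≠ 0 :=
      Finset.prod_ne_zero_iff.2 fun i _ => Polynomial.leadingCoeff_ne_zero.2 (hp0 i)
    exact mul_ne_zero (mul_ne_zero (mul_ne_zero (mul_ne_zero (mul_ne_zero (mul_ne_zero
      hX0 hX1) e0) e1) e2) hE0) e3
  refine ⟨n * (d * 653), MvPolynomial.aeval ![f, g] Ψ, ?_, ?_⟩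
  · intro h
    apply hΨ
    have hinj : Function.Injective (MvPolynomial.aeval (R := k) ![f, g]) := hfg
    exact hinj (by rw [h, map_zero])
  intro K _ _ _ htK S φ hφ hf hg D hD
  have hOrb := orb_of_map S φ hφ hf hg hu
  refine ⟨fun hψ hnc => ?_, fun hf0 hg0 hf1 hg1 hfg0 hW1 hW0 hnc =>
    h1 k K htK S (φ f) (φ g) (hOrb hf0 hg0) hnc hf1 hg1 hfg0 hW1 hW0 D hD⟩
  have hcomp : ∀ q : MvPolynomial (Fin 2) k, φ (MvPolynomial.aeval ![f, g] q) =
      MvPolynomial.aeval ![φ f, φ g] q := by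
    intro q
    have h5 : (φ.comp (MvPolynomial.aeval (R := k) ![f, g])) = MvPolynomial.aeval ![φ f, φ g] := by
      apply MvPolynomial.algHom_ext
      intro i
      fin_cases i <;> simp
    exact AlgHom.congr_fun h5 q
  rw [hcomp] at hψ
  have hψ2 : (φ f) * (φ g) * (φ f - 1) * (φ g - 1) * (φ f + φ g) *
      MvPolynomial.aeval ![φ f, φ g] E *
      ∏ i, MvPolynomial.aeval ![φ f, φ g] (p i).leadingCoeff ≠ 0 := by
    have h5 : MvPolynomial.aeval ![φ f, φ g] Ψ = (φ f) * (φ g) * (φ f - 1) * (φ g - 1) *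
      (φ f + φ g) * MvPolynomial.aeval ![φ f, φ g] E *
      ∏ i, MvPolynomial.aeval ![φ f, φ g] (p i).leadingCoeff := by
      simp [Ψ, map_prod]
    rw [← h5]
    exact hψ
  obtain ⟨hψ3, hc⟩ := ne_zero_and_ne_zero_of_mul hψ2
  obtain ⟨hψ4, hEne⟩ := ne_zero_and_ne_zero_of_mul hψ3
  obtain ⟨hψ5, hXY⟩ := ne_zero_and_ne_zero_of_mul hψ4
  obtain ⟨hψ6, hY1⟩ := ne_zero_and_ne_zero_of_mul hψ5
  obtain ⟨hψ7, hX1⟩ := ne_zero_and_ne_zero_of_mul hψ6
  obtain ⟨hX0, hY0⟩ := ne_zero_and_ne_zero_of_mul hψ7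
  have hci : ∀ i, MvPolynomial.aeval ![φ f, φ g] (p i).leadingCoeff ≠ 0 := fun i =>
    Finset.prod_ne_zero_iff.1 hc i (Finset.mem_univ i)
  have hroot : ∀ i, ((p i).map (MvPolynomial.aeval (R := k) ![φ f, φ g]).toRingHom).eval
      (φ (x i)) = 0 := by
    intro i
    have h5 := congrArg φ (hp i)
    rw [map_zero] at h5
    have h6 : (MvPolynomial.aeval (R := k) ![φ f, φ g]).toRingHom =
        (φ : A →+* K).comp (MvPolynomial.aeval (R := k) ![f, g]).toRingHom := by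
      apply MvPolynomial.ringHom_ext
      · intro r
        simp
      · intro j
        fin_cases j <;> simp
    rw [h6, ← Polynomial.map_map, Polynomial.eval_map, ← RingHom.coe_coe φ]
    rw [← RingHom.coe_coe φ] at h5
    rw [Polynomial.eval₂_at_apply]
    exact h5
  have hncst : ¬ (φ f ∈ Set.range (algebraMap k K) ∧ φ g ∈ Set.range (algebraMap k K)) := by
    rintro ⟨hfc, hgc⟩
    obtain ⟨a, ha⟩ := hnc
    apply ha
    have h5 : ((⊥ : Subalgebra k K).comap φ) = ⊤ := by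
      rw [eq_top_iff, ← hx]
      apply Algebra.adjoin_le
      rintro _ ⟨i, rfl⟩
      rw [SetLike.mem_coe, Subalgebra.mem_comap, Algebra.mem_bot]
      exact const_of_eq hfc hgc (p i) (hci i) (hroot i)
    have h6 : a ∈ ((⊥ : Subalgebra k K).comap φ) := by rw [h5]; trivial
    rw [Subalgebra.mem_comap, Algebra.mem_bot] at h6
    exact h6
  have hmain := h1 k K htK S (φ f) (φ g) (hOrb hX0 hY0) hncst (sub_ne_zero.1 hX1) (sub_ne_zero.1 hY1) hXY
    (fun hW => hEne (hE K (φ f) (φ g) (Or.inl hW))) (fun hW => hEne (hE K (φ f) (φ g) (Or.inr hW)))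
    D hD
  have hhi : ∀ i, hh k (φ (x i)) ≤ d * deg k ![φ f, φ g] := fun i =>
    h3 k K htK d (p i) (φ f) (φ g) (φ (x i)) (hd i) (hci i) (hroot i)
  have hfin := fun i => ((h4 k K htK).1 (φ (x i))).2.1
  have h5 := deg_le (fun i => φ (x i)) hfin
  calc (deg k (fun i => φ (x i)) : ℤ) ≤ ∑ i, hh k (φ (x i)) := h5
    _ ≤ ∑ _i : Fin n, ((d : ℤ) * deg k ![φ f, φ g]) := Finset.sum_le_sum fun i _ => hhi i
    _ = n * (d * deg k ![φ f, φ g]) := by simp
    _ ≤ n * (d * (653 * (canDeg D + S.card))) := by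
      apply mul_le_mul_of_nonneg_left _ (Int.natCast_nonneg _)
      exact mul_le_mul_of_nonneg_left hmain (Int.natCast_nonneg _)
    _ = ((n * (d * 653) : ℕ) : ℤ) * (canDeg D + S.card) := by
      push_cast
      ring

theorem tMAIN : T_MAIN := tMAIN' Pool.Agent.H62.FQ.sqi Pool.Agent.H86.FQ.W0I.w0i

theorem tSRG : T_SRG :=
  srg tMAIN Pool.Agent.H93.FQ.exc Pool.Agent.H31.FQ.alb tHHI

end Pool.Agent.H30.FQ
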