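import Pool.Agent.H30.FQ.Defs

/-!
# MP_70ba79_ag: targets of the board `fq_modules`
-/

set_option autoImplicit false

namespace Pool.Agent.H30.FQ

open SC Pool.Agent.H27.LV Polynomial

/-! ### Local statements at one place -/

/-- QSM: `Q` has at most `6 c` poles -/
def T_QSM : Prop := ∀ (k K : Type) [Field k] [CharZero k] [Field K] [Algebra k K] (v : DV k K)
  (D : Derivation k K K) (s c : ℤ) (X Y : K), Loc v D s c X Y → -(6 * c) ≤ v.ord (QQ D X Y)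

/-- QBD: orders of the zeros of `X`, `Y` outside `S`, `w = c + |ord Q|` -/
def T_QBD : Prop := ∀ (k K : Type) [Field k] [CharZero k] [Field K] [Algebra k K] (v : DV k K)
  (D : Derivation k K K) (c w : ℤ) (X Y : K), Loc v D 0 c X Y → w = c + |v.ord (QQ D X Y)| →
  0 ≤ w ∧ (w = 0 → ((v.ord X = 0 ∨ v.ord X = 4) ∧ (v.ord Y = 0 ∨ v.ord Y = 4) ∧
    (v.ord X = 0 ∨ v.ord Y = 0))) ∧ (1 ≤ w → v.ord X ≤ 10 * w ∧ v.ord Y ≤ 10 * w)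

/-- EBD: `e` and `ℓ` at the places with `s = 1` or `w ≥ 1` -/
def T_EBD : Prop := ∀ (k K : Type) [Field k] [CharZero k] [Field K] [Algebra k K] (v : DV k K)
  (D : Derivation k K K) (s c w : ℤ) (X Y : K), Loc v D s c X Y → w = c + |v.ord (QQ D X Y)| →
  (s = 1 ∨ 1 ≤ w) → ge v (-w) (ll D X Y) ∧ ge v (-(4 * w)) (ee D X Y)

/-- EGD: `e` and `ℓ` are regular at the places with `s = 0`, `w = 0` -/
def T_EGD : Prop := ∀ (k K : Type) [Field k] [CharZero k] [Field K] [Algebra k K] (v : DV k K)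
  (D : Derivation k K K) (X Y : K), Loc v D 0 0 X Y → v.ord (QQ D X Y) = 0 →
  ge v 0 (ll D X Y) ∧ ge v 0 (ee D X Y)

/-- PGD: at the places with `s = 0`, `w = 0` where `X` or `Y` vanishes, `p + q` has a simple pole -/
def T_PGD : Prop := ∀ (k K : Type) [Field k] [CharZero k] [Field K] [Algebra k K] (v : DV k K)
  (D : Derivation k K K) (X Y : K), Loc v D 0 0 X Y → v.ord (QQ D X Y) = 0 →
  (v.ord X ≠ 0 ∨ v.ord Y ≠ 0) → v.ord (pp D X Y + qq D X Y) = -1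

/-- FIL: local form of the final inequality -/
def T_FIL : Prop := ∀ (k K : Type) [Field k] [CharZero k] [Field K] [Algebra k K] (v : DV k K)
  (D : Derivation k K K) (c : ℤ) (X Y : K), Loc v D 1 c X Y →
  2 * (poleOrder v ![X, Y] : ℤ) ≤ 6 * c + v.ord (QQ D X Y) - v.ord X - v.ord Y

/-- SYS: the differential system -/
def T_SYS : Prop := ∀ (k K : Type) [Field k] [CharZero k] [Field K] [Algebra k K]
  (D : Derivation k K K) (X Y : K), X ≠ 0 → Y ≠ 0 → D X + D Y = X + Y - 1 → gg D X ≠ 0 →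
  IsSys D (pp D X Y) (qq D X Y) (aa D X) (bb D X Y) (ll D X Y) (kk D X Y) (QQ D X Y) ∧
  aa D X * X + bb D X Y * Y = 0 ∧ aa D X ≠ 0 ∧ QQ D X Y ≠ 0 ∧
  D X = 4 * (pp D X Y + (1 - ll D X Y) / 8) * X ∧ D Y = 4 * (qq D X Y + (1 - ll D X Y) / 8) * Y

/-! ### Global statements -/

/-- CVP: the orders of `D` when `D u = u` -/
def T_CVP : Prop := ∀ (k K : Type) [Field k] [IsAlgClosed k] [CharZero k] [Field K] [Algebra k K]
  [Algebra.EssFiniteType k K], Algebra.trdeg k K = 1 → ∀ (S : Finset (DV k K))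
  (D0 : Derivation k K K) (u : K), D0 ≠ 0 → u ∉ Set.range (algebraMap k K) →
  (∀ v, v ∉ S → v.ord u = 0) →
  ∃ D : Derivation k K K, D ≠ 0 ∧ D u = u ∧ (∀ v, 0 ≤ cc S D v) ∧
    {v : DV k K | cc S D v ≠ 0}.Finite ∧ ∑ᶠ v, cc S D v = canDeg D0 + S.card

/-- WSM: `∑ (c + |ord Q|) ≤ 13 ∑ c` if `ord Q ≥ - 6 c` -/
def T_WSM : Prop := ∀ (k K : Type) [Field k] [IsAlgClosed k] [CharZero k] [Field K] [Algebra k K]
  [Algebra.EssFiniteType k K], Algebra.trdeg k K = 1 → ∀ (c : DV k K → ℤ) (Q : K),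
  {v | c v ≠ 0}.Finite → (∀ v, 0 ≤ c v) → (∀ v, -(6 * c v) ≤ v.ord Q) →
  {v | c v + |v.ord Q| ≠ 0}.Finite ∧ ∑ᶠ v, (c v + |v.ord Q|) ≤ 13 * ∑ᶠ v, c v

/-- SMD: derivatives of small functions -/
def T_SMD : Prop := ∀ (k K : Type) [Field k] [IsAlgClosed k] [CharZero k] [Field K] [Algebra k K]
  [Algebra.EssFiniteType k K], Algebra.trdeg k K = 1 → ∀ (S : Finset (DV k K))
  (D : Derivation k K K) (w : DV k K → ℤ), D ≠ 0 → (∀ v, 0 ≤ cc S D v) → (∀ v, cc S D v ≤ w v) →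
  ∀ (j : ℕ) (f : K), Sm w j f → Sm w (j + 1) (D f)

/-- SMP: polynomials with small coefficients -/
def T_SMP : Prop := ∀ (k K : Type) [Field k] [CharZero k] [Field K] [Algebra k K]
  (w : DV k K → ℤ), (∀ v, 0 ≤ w v) →
  (∀ (j : ℕ) (f : K), Sm w j f → SmP w j (C f)) ∧ SmP w 1 (X : K[X]) ∧
  (∀ (i j : ℕ) (p q : K[X]), SmP w i p → SmP w j q → SmP w (i + j) (p * q)) ∧
  (∀ (i : ℕ) (p q : K[X]), SmP w i p → SmP w i q → SmP w i (p + q)) ∧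
  (∀ (i j : ℕ) (p : K[X]), i ≤ j → SmP w i p → SmP w j p)

/-- ROOT: roots of polynomials with small coefficients -/
def T_ROOT : Prop := ∀ (k K : Type) [Field k] [IsAlgClosed k] [CharZero k] [Field K] [Algebra k K]
  [Algebra.EssFiniteType k K], Algebra.trdeg k K = 1 → ∀ (w : DV k K → ℤ), (∀ v, 0 ≤ w v) →
  {v | w v ≠ 0}.Finite → ∀ (ω : ℕ) (p : K[X]), SmP w ω p → p ≠ 0 → ∀ S : K, p.eval S = 0 →
  hh k S ≤ 2 * ω * ∑ᶠ v, w v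

/-- HHI: the number of zeros is the number of poles, translation by constants, sum of the orders
outside `S`, nonnegativity -/
def T_HHI : Prop := ∀ (k K : Type) [Field k] [IsAlgClosed k] [CharZero k] [Field K] [Algebra k K]
  [Algebra.EssFiniteType k K], Algebra.trdeg k K = 1 →
  (∀ x : K, 0 ≤ hh k x ∧ {v : DV k K | max 0 (-(v.ord x)) ≠ 0}.Finite ∧
    ∑ᶠ v : DV k K, max 0 (v.ord x) = hh k x) ∧
  (∀ (x : K) (c : k), hh k (x + algebraMap k K c) = hh k x) ∧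
  (∀ (S : Finset (DV k K)) (x : K), ZZ S x = - ∑ v ∈ S, v.ord x ∧
    {v : DV k K | oo S x v ≠ 0}.Finite)

/-- FIN: the final inequality -/
def T_FIN : Prop := ∀ (k K : Type) [Field k] [IsAlgClosed k] [CharZero k] [Field K] [Algebra k K]
  [Algebra.EssFiniteType k K], Algebra.trdeg k K = 1 → ∀ (S : Finset (DV k K))
  (D : Derivation k K K) (X Y : K), D ≠ 0 → (∀ v, 0 ≤ cc S D v) →
  {v : DV k K | cc S D v ≠ 0}.Finite → D X + D Y = X + Y - 1 → gg D X ≠ 0 → Orb S X Y →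
  2 * (deg k ![X, Y] : ℤ) ≤ 6 * ∑ᶠ v, cc S D v + ZZ S X + ZZ S Y

/-- ZHI: the zeros of `X` and `Y` outside `S` are poles of `p + q` -/
def T_ZHI : Prop := ∀ (k K : Type) [Field k] [IsAlgClosed k] [CharZero k] [Field K] [Algebra k K]
  [Algebra.EssFiniteType k K], Algebra.trdeg k K = 1 → ∀ (S : Finset (DV k K))
  (D : Derivation k K K) (w : DV k K → ℤ) (X Y : K), D ≠ 0 → (∀ v, 0 ≤ cc S D v) →
  D X + D Y = X + Y - 1 → gg D X ≠ 0 → Orb S X Y →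
  (∀ v, w v = cc S D v + |v.ord (QQ D X Y)|) → {v | w v ≠ 0}.Finite →
  ZZ S X + ZZ S Y ≤ 4 * hh k (pp D X Y + qq D X Y) + 20 * ∑ᶠ v, w v

/-- GZR: the case `G = 0` -/
def T_GZR : Prop := ∀ (k K : Type) [Field k] [IsAlgClosed k] [CharZero k] [Field K] [Algebra k K]
  [Algebra.EssFiniteType k K], Algebra.trdeg k K = 1 → ∀ (S : Finset (DV k K))
  (D : Derivation k K K) (X Y : K), D ≠ 0 → (∀ v, 0 ≤ cc S D v) →
  {v : DV k K | cc S D v ≠ 0}.Finite → D X + D Y = X + Y - 1 →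
  X + Y - 1 ∉ Set.range (algebraMap k K) → gg D X = 0 → Orb S X Y → X ≠ 1 → Y ≠ 1 →
  3 * (deg k ![X, Y] : ℤ) ≤ 4 * ∑ᶠ v, cc S D v

/-- LMU: bound of the degree in terms of the degree of `u = X + Y - 1` -/
def T_LMU : Prop := ∀ (k K : Type) [Field k] [IsAlgClosed k] [CharZero k] [Field K] [Algebra k K]
  [Algebra.EssFiniteType k K], Algebra.trdeg k K = 1 → ∀ (S : Finset (DV k K))
  (D : Derivation k K K) (X Y : K), D ≠ 0 → Orb S X Y → X + Y ≠ 0 →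
  ¬ (X ∈ Set.range (algebraMap k K) ∧ Y ∈ Set.range (algebraMap k K)) →
  (deg k ![X, Y] : ℤ) ≤ 2 * (canDeg D + S.card) + 2 * hh k (X + Y - 1) ∨
  ((deg k ![X, Y] : ℤ) = hh k (X + Y - 1) ∧ X + Y - 1 ∉ Set.range (algebraMap k K))

/-- KAP: the case `κ' = 2 ℓ κ` -/
def T_KAP : Prop := ∀ (k K : Type) [Field k] [IsAlgClosed k] [CharZero k] [Field K] [Algebra k K]
  [Algebra.EssFiniteType k K], Algebra.trdeg k K = 1 → ∀ (D : Derivation k K K)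
  (w : DV k K → ℤ), D ≠ 0 → (∀ v, 0 ≤ w v) → {v | w v ≠ 0}.Finite →
  (∀ (j : ℕ) (f : K), Sm w j f → Sm w (j + 1) (D f)) → ∀ l κ u : K, Sm w 1 l → Sm w 2 κ →
  D u = u → u ≠ 0 → κ ≠ 0 → D κ = 2 * l * κ → 16 * κ = 1 - l ^ 2 + 2 * D l →
  hh k u ≤ 4 * ∑ᶠ v, w v ∨ (l = 0 ∧ κ = 1 / 16)

/-! ### Algebra of the differential system -/

/-- the equation `F = 0` satisfied by `S = p + q`, `P = p q` -/
def eqF {K : Type} [Field K] (e e1 e2 κ κ1 Q S P : K) : Prop :=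
  120 / 7 * P ^ 2 + (e + 6 * κ) * S ^ 2 + (11 * e + 186 * κ) / 7 * P +
    (13 / 32 * e1 + 3 / 2 * κ1) * S + (e ^ 2 / 28 + 3 / 7 * e * κ + 3 * κ ^ 2 + e2 / 32 + 4 * Q) = 0

/-- the equation `F1 = 0` -/
def eqF1 {K : Type} [Field K] (e e1 e2 e3 κ κ1 κ2 Q S P : K) : Prop :=
  (81 * e + 846 * κ) / 7 * S * P + (45 / 32 * e1 + 15 / 2 * κ1) * S ^ 2 +
    (183 / 56 * e1 + 216 / 7 * κ1) * P +
    (31 / 56 * e ^ 2 + 177 / 14 * e * κ + 15 / 32 * e2 + 153 / 2 * κ ^ 2 + 3 / 2 * κ2 + 8 * Q) * S +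
    (69 / 448 * e * e1 + 9 / 14 * e * κ1 + 53 / 32 * e1 * κ + e3 / 32 + 9 * κ * κ1) = 0

/-- ALG: the identities -/
def T_ALG : Prop := ∀ (k K : Type) [Field k] [CharZero k] [Field K] [Algebra k K]
  (D : Derivation k K K) (p q a b l κ Q e e1 e2 e3 κ1 κ2 S P : K), IsSys D p q a b l κ Q →
  e = 7 * (a + b) - 12 * (p + q) ^ 2 - 9 * (p - q) ^ 2 → e1 = nab D l 2 e → e2 = nab D l 3 e1 →
  e3 = nab D l 4 e2 → κ1 = nab D l 2 κ → κ2 = nab D l 3 κ1 → S = p + q → P = p * q →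
  nab D l 4 Q = 0 ∧
  7 * (a + b) = e + 21 * S ^ 2 - 36 * P ∧
  (p - q) * (a - b) = 3 * S ^ 3 - 78 / 7 * S * P - (3 / 28 * e + 3 / 2 * κ) * S - e1 / 32 ∧
  ((p - q) * (a - b)) ^ 2 = (S ^ 2 - 4 * P) * ((a + b) ^ 2 + 4 * Q) ∧
  nab D l 1 S = -S ^ 2 + 20 / 7 * P + (e / 7 + 2 * κ) ∧
  nab D l 2 P = -S * P + (e / 8 + 7 / 4 * κ) * S + e1 / 64 ∧
  eqF e e1 e2 κ κ1 Q S P ∧ eqF1 e e1 e2 e3 κ κ1 κ2 Q S P

/-- ELM: elimination of `P`: either `S` is small, or `F1` is trivial, or `P` is a linear function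
of `S` -/
def T_ELM : Prop := ∀ (k K : Type) [Field k] [IsAlgClosed k] [CharZero k] [Field K] [Algebra k K]
  [Algebra.EssFiniteType k K], Algebra.trdeg k K = 1 → ∀ (w : DV k K → ℤ), (∀ v, 0 ≤ w v) →
  {v | w v ≠ 0}.Finite → ∀ e e1 e2 e3 κ κ1 κ2 Q S P : K, Sm w 2 e → Sm w 3 e1 → Sm w 4 e2 →
  Sm w 5 e3 → Sm w 2 κ → Sm w 3 κ1 → Sm w 4 κ2 → Sm w 4 Q →
  eqF e e1 e2 κ κ1 Q S P → eqF1 e e1 e2 e3 κ κ1 κ2 Q S P →
  hh k S ≤ 20 * ∑ᶠ v, w v ∨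
  (81 * e + 846 * κ = 0 ∧ 183 / 56 * e1 + 216 / 7 * κ1 = 0 ∧
    31 / 56 * e ^ 2 + 177 / 14 * e * κ + 15 / 32 * e2 + 153 / 2 * κ ^ 2 + 3 / 2 * κ2 + 8 * Q = 0) ∨
  ∃ μ ν : K, P = μ * S + ν ∧ 120 * μ ^ 2 + 7 * (e + 6 * κ) = 0 ∧
    120 / 7 * ν ^ 2 + (11 * e + 186 * κ) / 7 * ν +
      (e ^ 2 / 28 + 3 / 7 * e * κ + 3 * κ ^ 2 + e2 / 32 + 4 * Q) = 0

/-- LIN: the case when `P` is a linear function of `S`: either `S` is small, or the line is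
invariant and the equation `z ^ 2 = …` is an identity -/
def T_LIN : Prop := ∀ (k K : Type) [Field k] [IsAlgClosed k] [CharZero k] [Field K] [Algebra k K]
  [Algebra.EssFiniteType k K], Algebra.trdeg k K = 1 → ∀ (w : DV k K → ℤ), (∀ v, 0 ≤ w v) →
  {v | w v ≠ 0}.Finite → ∀ (D : Derivation k K K) (l e e1 e2 κ Q S P μ ν a b p q : K),
  (∀ (j : ℕ) (f : K), Sm w j f → Sm w (j + 1) (D f)) →
  Sm w 1 l → Sm w 2 e → Sm w 3 e1 → Sm w 4 e2 → Sm w 2 κ → Sm w 4 Q →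
  P = μ * S + ν → 120 * μ ^ 2 + 7 * (e + 6 * κ) = 0 →
  120 / 7 * ν ^ 2 + (11 * e + 186 * κ) / 7 * ν +
      (e ^ 2 / 28 + 3 / 7 * e * κ + 3 * κ ^ 2 + e2 / 32 + 4 * Q) = 0 →
  7 * (a + b) = e + 21 * S ^ 2 - 36 * P →
  (p - q) * (a - b) = 3 * S ^ 3 - 78 / 7 * S * P - (3 / 28 * e + 3 / 2 * κ) * S - e1 / 32 →
  ((p - q) * (a - b)) ^ 2 = (S ^ 2 - 4 * P) * ((a + b) ^ 2 + 4 * Q) →
  nab D l 1 S = -S ^ 2 + 20 / 7 * P + (e / 7 + 2 * κ) →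
  nab D l 2 P = -S * P + (e / 8 + 7 / 4 * κ) * S + e1 / 64 →
  hh k S ≤ 20 * ∑ᶠ v, w v ∨
  (nab D l 1 μ = e / 8 + 7 / 4 * κ - ν - 20 / 7 * μ ^ 2 ∧
    (3 * X ^ 3 - C (78 / 7 : K) * X * (C μ * X + C ν) - C (3 / 28 * e + 3 / 2 * κ) * X -
        C (e1 / 32)) ^ 2 =
      (X ^ 2 - 4 * (C μ * X + C ν)) *
        ((C (1 / 7 : K) * (C e + 21 * X ^ 2 - 36 * (C μ * X + C ν))) ^ 2 + 4 * C Q))

/-- SQI: consequences of the identity -/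
def T_SQI : Prop := ∀ (k K : Type) [Field k] [CharZero k] [Field K] [Algebra k K]
  (D : Derivation k K K) (l e e1 κ Q μ ν : K), Q ≠ 0 → e1 = nab D l 2 e →
  120 * μ ^ 2 + 7 * (e + 6 * κ) = 0 → nab D l 1 μ = e / 8 + 7 / 4 * κ - ν - 20 / 7 * μ ^ 2 →
  (3 * X ^ 3 - C (78 / 7 : K) * X * (C μ * X + C ν) - C (3 / 28 * e + 3 / 2 * κ) * X -
        C (e1 / 32)) ^ 2 =
      (X ^ 2 - 4 * (C μ * X + C ν)) *
        ((C (1 / 7 : K) * (C e + 21 * X ^ 2 - 36 * (C μ * X + C ν))) ^ 2 + 4 * C Q) →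
  μ = 0 ∧ ν = κ ∧ e = -6 * κ ∧ e1 = 0 ∧ Q = -9 * κ ^ 2

/-- CAA: the case when `F1` is trivial -/
def T_CAA : Prop := ∀ (k K : Type) [Field k] [CharZero k] [Field K] [Algebra k K]
  (D : Derivation k K K) (l e e1 e2 κ κ1 κ2 Q S P : K), e1 = nab D l 2 e → e2 = nab D l 3 e1 →
  κ1 = nab D l 2 κ → κ2 = nab D l 3 κ1 → eqF e e1 e2 κ κ1 Q S P →
  81 * e + 846 * κ = 0 → 183 / 56 * e1 + 216 / 7 * κ1 = 0 →
  31 / 56 * e ^ 2 + 177 / 14 * e * κ + 15 / 32 * e2 + 153 / 2 * κ ^ 2 + 3 / 2 * κ2 + 8 * Q = 0 →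
  κ1 = 0 ∧ e = -(94 / 9) * κ ∧ e1 = 0 ∧ Q = -(49 / 81) * κ ^ 2 ∧
    27 * P ^ 2 + 16 * κ * P = 7 * κ * S ^ 2

/-- W1I: identification of the first exceptional curve -/
def T_W1I : Prop := ∀ (k K : Type) [Field k] [CharZero k] [Field K] [Algebra k K]
  (D : Derivation k K K) (p q a b X Y : K), X ≠ 0 → Y ≠ 0 → X + Y ≠ 0 → X + Y - 1 ≠ 0 → a ≠ 0 →
  D p = a - 4 * p ^ 2 + 1 / 16 → D q = b - 4 * q ^ 2 + 1 / 16 →
  a * X + b * Y = 0 → 4 * (p + 1 / 8) * X + 4 * (q + 1 / 8) * Y = X + Y - 1 → p * q = 1 / 16 →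
  a + b = 3 * (p + q) ^ 2 - 3 / 8 → (p - q) * (a - b) = 3 * (p + q) * (p - q) ^ 2 → W1 X Y

/-- W0I: identification of the second exceptional curve -/
def T_W0I : Prop := ∀ (k K : Type) [Field k] [IsAlgClosed k] [CharZero k] [Field K] [Algebra k K]
  (D : Derivation k K K) (p q a b X Y : K), X ≠ 0 → Y ≠ 0 → X + Y ≠ 0 → X + Y - 1 ≠ 0 → a ≠ 0 →
  D p = a - 4 * p ^ 2 + 1 / 16 → D q = b - 4 * q ^ 2 + 1 / 16 →
  a * X + b * Y = 0 → 4 * (p + 1 / 8) * X + 4 * (q + 1 / 8) * Y = X + Y - 1 →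
  27 * (p * q) ^ 2 + p * q = 7 / 16 * (p + q) ^ 2 →
  7 * (a + b) = -(47 / 72) + 21 * (p + q) ^ 2 - 36 * (p * q) →
  (p - q) * (a - b) = 3 * (p + q) ^ 3 - 78 / 7 * (p + q) * (p * q) - (p + q) / 42 → W0 k X Y

end Pool.Agent.H30.FQ
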